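import Pool.Agent.ColorUp.Defs

namespace Pool.Agent.ColorUp

open Finset BigOperators
open scoped Classical
open Pool.Agent.ColorRef

set_option linter.unusedSectionVars false

variable {n : ℕ}

lemma pow_transpose_eq (M : Matrix (Fin n) (Fin n) ℝ) (hM : M.transpose = M) (r : ℕ) :
    (M ^ r).transpose = M ^ r := by
  rw [Matrix.transpose_pow, hM]

lemma trace_sq_eq (N : Matrix (Fin n) (Fin n) ℝ) (hN : N.transpose = N) :
    (N * N).trace = ∑ a, ∑ b, N a b ^ 2 := by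
  simp only [Matrix.trace, Matrix.diag_apply, Matrix.mul_apply]
  refine sum_congr rfl (fun a _ => sum_congr rfl (fun b _ => ?_))
  have h : N b a = N a b := by
    conv_lhs => rw [← hN]
    rfl
  rw [h, sq]

lemma trace_two_mul (M : Matrix (Fin n) (Fin n) ℝ) (hM : M.transpose = M) (r : ℕ) :
    (M ^ (2 * r)).trace = ∑ a, ∑ b, (M ^ r) a b ^ 2 := by
  rw [two_mul, pow_add, trace_sq_eq _ (pow_transpose_eq M hM r)]

/-- For a symmetric matrix `trace (M ^ (2 ^ j)) = ∑ (M ^ (2 ^ (j-1))) a b ^ 2 ≥ 0`. -/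
theorem trace_pow_nonneg (M : Matrix (Fin n) (Fin n) ℝ) (hM : M.transpose = M) (j : ℕ)
    (hj : 1 ≤ j) : 0 ≤ (M ^ (2 ^ j)).trace := by
  obtain ⟨i, rfl⟩ : ∃ i, j = i + 1 := ⟨j - 1, by omega⟩
  rw [pow_succ' 2 i, trace_two_mul M hM]
  exact sum_nonneg (fun a _ => sum_nonneg (fun b _ => sq_nonneg _))

lemma dot_two_mul (M : Matrix (Fin n) (Fin n) ℝ) (hM : M.transpose = M) (r : ℕ)
    (v : Fin n → ℝ) : v ⬝ᵥ (M ^ (2 * r)).mulVec v = ∑ a, ((M ^ r).mulVec v a) ^ 2 := by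
  have h1 : (M ^ (2 * r)).mulVec v = (M ^ r).mulVec ((M ^ r).mulVec v) := by
    rw [Matrix.mulVec_mulVec, two_mul, pow_add]
  rw [h1, Matrix.dotProduct_mulVec, ← Matrix.mulVec_transpose, pow_transpose_eq M hM r]
  simp only [dotProduct]
  refine sum_congr rfl (fun a _ => ?_)
  rw [sq]

lemma dot_sq_le (u v : Fin n → ℝ) : (v ⬝ᵥ u) ^ 2 ≤ (v ⬝ᵥ v) * ∑ a, (u a) ^ 2 := by
  have h := Finset.sum_mul_sq_le_sq_mul_sq (univ : Finset (Fin n)) v u
  have h2 : v ⬝ᵥ v = ∑ a, v a ^ 2 := by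
    simp only [dotProduct]
    exact sum_congr rfl (fun a _ => (sq (v a)).symm)
  rw [h2]
  exact h

lemma step_ge (M : Matrix (Fin n) (Fin n) ℝ) (hM : M.transpose = M) (r : ℕ)
    (v : Fin n → ℝ) (c : ℝ) (hc : 0 < c) (hv : v ⬝ᵥ v = c) :
    (v ⬝ᵥ (M ^ r).mulVec v / c) ^ 2 ≤ v ⬝ᵥ (M ^ (2 * r)).mulVec v / c := by
  rw [dot_two_mul M hM r v, div_pow, div_le_div_iff₀ (by positivity) hc]
  have h := dot_sq_le ((M ^ r).mulVec v) v
  rw [hv] at h
  calc (v ⬝ᵥ (M ^ r).mulVec v) ^ 2 * c ≤ (c * ∑ a, ((M ^ r).mulVec v a) ^ 2) * c :=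
        mul_le_mul_of_nonneg_right h hc.le
    _ = (∑ a, ((M ^ r).mulVec v a) ^ 2) * c ^ 2 := by ring

/-- Cauchy-Schwarz: with `v · v = c > 0` and `v · M v = a`:
`a ^ (2 ^ j) ≤ (v · M ^ (2 ^ j) v) * c ^ (2 ^ j - 1)` by induction on `j`, and
`v · M ^ (2 r) v = |M ^ r v|^2 ≤ trace (M ^ (2 r)) * c`. -/
theorem trace_pow_ge (M : Matrix (Fin n) (Fin n) ℝ) (hM : M.transpose = M) (j : ℕ)
    (hj : 1 ≤ j) (v : Fin n → ℝ) (c : ℝ) (hc : 0 < c) (hv : v ⬝ᵥ v = c) :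
    (v ⬝ᵥ M.mulVec v / c) ^ (2 ^ j) ≤ (M ^ (2 ^ j)).trace := by
  have key : ∀ i : ℕ, (v ⬝ᵥ M.mulVec v / c) ^ (2 ^ (i + 1)) ≤
      v ⬝ᵥ (M ^ (2 ^ (i + 1))).mulVec v / c := by
    intro i
    induction i with
    | zero =>
      have h := step_ge M hM 1 v c hc hv
      simpa using h
    | succ i ih =>
      have h := step_ge M hM (2 ^ (i + 1)) v c hc hv
      have h0 : 0 ≤ (v ⬝ᵥ M.mulVec v / c) ^ (2 ^ (i + 1)) := by
        rw [pow_succ 2 i, pow_mul]
        exact sq_nonneg _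
      calc (v ⬝ᵥ M.mulVec v / c) ^ (2 ^ (i + 1 + 1))
          = ((v ⬝ᵥ M.mulVec v / c) ^ (2 ^ (i + 1))) ^ 2 := by
            rw [← pow_mul, ← pow_succ]
        _ ≤ (v ⬝ᵥ (M ^ (2 ^ (i + 1))).mulVec v / c) ^ 2 := pow_le_pow_left₀ h0 ih 2
        _ ≤ _ := by
            rw [pow_succ' 2 (i + 1)]
            exact h
  obtain ⟨i, rfl⟩ : ∃ i, j = i + 1 := ⟨j - 1, by omega⟩
  refine (key i).trans ?_
  rw [pow_succ' 2 i, dot_two_mul M hM, trace_two_mul M hM, div_le_iff₀ hc]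
  rw [sum_mul]
  refine sum_le_sum (fun a _ => ?_)
  have h := dot_sq_le v ((M ^ (2 ^ i)) a)
  have h2 : (M ^ (2 ^ i)).mulVec v a = (M ^ (2 ^ i)) a ⬝ᵥ v := rfl
  have h3 : ∑ b, v b ^ 2 = c := by
    rw [← hv]
    simp only [dotProduct]
    exact sum_congr rfl (fun b _ => sq (v b))
  have h4 : (M ^ (2 ^ i)) a ⬝ᵥ (M ^ (2 ^ i)) a = ∑ b, (M ^ (2 ^ i)) a b ^ 2 := by
    simp only [dotProduct]
    exact sum_congr rfl (fun b _ => (sq _).symm)
  rw [h3, h4] at h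
  rw [h2]
  exact h

/-- Lower bound of the trace polynomial when there is an independent set `K`: take `I ⊆ K` with
`t` elements and the indicator vector `v` of `K \ I`, so `nu I y = 1` on `K \ I`,
`v · v = b` and `v · M v = - b (b - 1)` with `b = K.card - t`. -/
theorem low (y : Pair n → Bool) (K : Finset (Fin n))
    (hK : ∀ u ∈ K, ∀ w ∈ K, u ≠ w → Sx y u w = -1) (t j m : ℕ) (hj : 1 ≤ j) (hm : t + 2 ≤ m)
    (hmK : m ≤ K.card) : ((m : ℝ) - t - 1) ^ (2 ^ j) ≤ tf t (2 ^ j) y := by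
  obtain ⟨I, hIK, hI⟩ := exists_subset_card_eq (show t ≤ K.card by omega)
  have hmem : I ∈ powersetCard t (univ : Finset (Fin n)) :=
    mem_powersetCard.2 ⟨subset_univ _, hI⟩
  have h1 : ((Mx I y) ^ (2 ^ j)).trace ≤ tf t (2 ^ j) y := by
    unfold tf
    exact single_le_sum (f := fun I => ((Mx I y) ^ (2 ^ j)).trace)
      (fun J _ => trace_pow_nonneg (Mx J y) (Mx_symm J y) j hj) hmem
  refine le_trans ?_ h1
  set B := K \ I with hB
  have hBc : (B.card : ℝ) = (K.card : ℝ) - t := by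
    rw [hB, card_sdiff_of_subset hIK, hI, Nat.cast_sub (by omega)]
  have hbm : (m : ℝ) - t ≤ B.card := by
    rw [hBc]
    have : (m : ℝ) ≤ K.card := by exact_mod_cast hmK
    linarith
  have hm2 : (t : ℝ) + 2 ≤ m := by exact_mod_cast hm
  have hb : (0 : ℝ) < B.card := by linarith
  let v : Fin n → ℝ := fun u => if u ∈ B then 1 else 0
  have hv : v ⬝ᵥ v = (B.card : ℝ) := by
    simp only [dotProduct, v]
    rw [show (∑ x, (if x ∈ B then (1 : ℝ) else 0) * (if x ∈ B then (1 : ℝ) else 0)) =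
      ∑ x, (if x ∈ B then (1 : ℝ) else 0) from sum_congr rfl (fun x _ => by
        by_cases h : x ∈ B <;> simp [h])]
    rw [sum_ite_mem, univ_inter, sum_const, nsmul_eq_mul, mul_one]
  have hnu : ∀ u ∈ B, nu I y u = 1 := by
    intro u hu
    rw [hB, mem_sdiff] at hu
    unfold nu
    rw [if_neg hu.2]
    refine prod_eq_one (fun i hi => ?_)
    rw [hK i (hIK hi) u hu.1 (fun h => hu.2 (h ▸ hi))]
    norm_num
  have hMv : v ⬝ᵥ (Mx I y).mulVec v = -((B.card : ℝ) * (B.card - 1)) := by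
    have e1 : v ⬝ᵥ (Mx I y).mulVec v = ∑ u ∈ B, ∑ w ∈ B, Mx I y u w := by
      simp only [dotProduct, Matrix.mulVec, v]
      rw [show (∑ x, (if x ∈ B then (1 : ℝ) else 0) *
          ∑ w, Mx I y x w * (if w ∈ B then (1 : ℝ) else 0)) =
        ∑ x, (if x ∈ B then ∑ w, Mx I y x w * (if w ∈ B then (1 : ℝ) else 0) else 0) from
          sum_congr rfl (fun x _ => by by_cases h : x ∈ B <;> simp [h])]
      rw [sum_ite_mem, univ_inter]
      refine sum_congr rfl (fun u _ => ?_)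
      rw [show (∑ w, Mx I y u w * (if w ∈ B then (1 : ℝ) else 0)) =
        ∑ w, (if w ∈ B then Mx I y u w else 0) from
          sum_congr rfl (fun w _ => by by_cases h : w ∈ B <;> simp [h])]
      rw [sum_ite_mem, univ_inter]
    rw [e1]
    have e2 : ∀ u ∈ B, ∑ w ∈ B, Mx I y u w = -((B.card : ℝ) - 1) := by
      intro u hu
      rw [← add_sum_erase B _ hu]
      have e3 : Mx I y u u = 0 := by
        rw [Mx_apply, Sx_self]
        ring
      rw [e3, zero_add]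
      have e4 : ∀ w ∈ B.erase u, Mx I y u w = -1 := by
        intro w hw
        rw [mem_erase] at hw
        rw [Mx_apply, hnu u hu, hnu w hw.2]
        have hu' := (mem_sdiff.1 (hB ▸ hu)).1
        have hw' := (mem_sdiff.1 (hB ▸ hw.2)).1
        rw [hK u hu' w hw' (fun h => hw.1 h.symm)]
        ring
      rw [sum_congr rfl e4, sum_const, card_erase_of_mem hu, nsmul_eq_mul,
        Nat.cast_sub (card_pos.2 ⟨u, hu⟩)]
      push_cast
      ring
    rw [sum_congr rfl e2, sum_const, nsmul_eq_mul]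
    ring
  have h2 := trace_pow_ge (Mx I y) (Mx_symm I y) j hj v B.card hb hv
  refine le_trans ?_ h2
  have h3 : v ⬝ᵥ (Mx I y).mulVec v / (B.card : ℝ) = -((B.card : ℝ) - 1) := by
    rw [hMv]
    field_simp
  have he : Even (2 ^ j) := (Nat.even_pow.2 ⟨even_two, by omega⟩)
  rw [h3, he.neg_pow]
  refine pow_le_pow_left₀ (by linarith) (by linarith) _

/-- Two traces: `trace (M ^ r) ^ 2 ≤ n * trace (M ^ (2 r))`. -/
theorem trace_sq_le (M : Matrix (Fin n) (Fin n) ℝ) (hM : M.transpose = M) (r : ℕ) :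
    (M ^ r).trace ^ 2 ≤ n * (M ^ (2 * r)).trace := by
  rw [trace_two_mul M hM]
  have h := sq_sum_le_card_mul_sum_sq (s := (univ : Finset (Fin n)))
    (f := fun a => (M ^ r) a a)
  rw [card_univ, Fintype.card_fin] at h
  have h2 : (M ^ r).trace = ∑ a, (M ^ r) a a := rfl
  rw [h2]
  refine h.trans (mul_le_mul_of_nonneg_left ?_ (Nat.cast_nonneg n))
  refine sum_le_sum (fun a _ => ?_)
  exact single_le_sum (f := fun b => (M ^ r) a b ^ 2) (fun b _ => sq_nonneg _) (mem_univ a)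

end Pool.Agent.ColorUp
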