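import Mathlib

namespace Pool.Agent.ColorUp

/-- a power of two close to a given number -/
theorem exists_two_pow (y : ℝ) (hy : 1 ≤ y) : ∃ t : ℕ, 1 ≤ t ∧ y ≤ 2 ^ t ∧ (2 : ℝ) ^ t ≤ 2 * y := by
  obtain ⟨n, h1, h2⟩ := exists_nat_pow_near hy (by norm_num : (1 : ℝ) < 2)
  refine ⟨n + 1, by omega, h2.le, ?_⟩
  rw [pow_succ]
  linarith

/-- a logarithm is smaller than a power -/
theorem exists_log_le (K r : ℝ) (hK : 0 < K) (hr : 0 < r) :
    ∃ n₀ : ℕ, ∀ n : ℕ, n₀ ≤ n → K * Real.log n ≤ (n : ℝ) ^ r := by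
  have h := (isLittleO_log_rpow_atTop hr).bound (inv_pos.2 hK)
  have h2 := tendsto_natCast_atTop_atTop.eventually (h.and (Filter.eventually_ge_atTop (1 : ℝ)))
  obtain ⟨n₀, h3⟩ := Filter.eventually_atTop.1 h2
  refine ⟨n₀, fun n hn => ?_⟩
  obtain ⟨h4, h5⟩ := h3 n hn
  have h6 : 0 ≤ Real.log (n : ℝ) := Real.log_nonneg h5
  have h7 : 0 ≤ (n : ℝ) ^ r := Real.rpow_nonneg (by linarith) _
  rw [Real.norm_of_nonneg h6, Real.norm_of_nonneg h7] at h4
  calc K * Real.log n ≤ K * (K⁻¹ * (n : ℝ) ^ r) := mul_le_mul_of_nonneg_left h4 hK.le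
    _ = (n : ℝ) ^ r := by field_simp

/-- the last estimate but one, in logarithmic form -/
theorem pow_mul_pow_le_one (x B e : ℝ) (t N : ℕ) (hx : 1 ≤ x) (hB : 0 < B) (he : 0 < e)
    (ht : 1 ≤ t) (h1 : (1 + e) * Real.log B ≤ t * Real.log 2)
    (h2 : 5 * (1 + e) / e * (Real.log x / Real.log 2) ≤ N) :
    x ^ (2 * t + 3) * (B / 2 ^ t) ^ N ≤ 1 := by
  have hx0 : 0 < x := by linarith
  have hlx : 0 ≤ Real.log x := Real.log_nonneg hx
  have hl2 : 0 < Real.log 2 := Real.log_pos (by norm_num)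
  have hpos : 0 < x ^ (2 * t + 3) * (B / 2 ^ t) ^ N := by positivity
  have ht' : (1 : ℝ) ≤ t := by exact_mod_cast ht
  have hlog : Real.log (x ^ (2 * t + 3) * (B / 2 ^ t) ^ N) ≤ 0 := by
    rw [Real.log_mul (by positivity) (by positivity), Real.log_pow, Real.log_pow,
      Real.log_div (by positivity) (by positivity), Real.log_pow]
    have h3 : Real.log B - t * Real.log 2 ≤ - (e / (1 + e)) * (t * Real.log 2) := by
      have h4 : Real.log B ≤ t * Real.log 2 / (1 + e) := by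
        rw [le_div_iff₀ (by linarith)]
        linarith
      have h5 : t * Real.log 2 / (1 + e) - t * Real.log 2 = - (e / (1 + e)) * (t * Real.log 2) := by
        field_simp
        ring
      linarith
    have h6 : (N : ℝ) * (Real.log B - t * Real.log 2) ≤ - (5 * t * Real.log x) := by
      calc (N : ℝ) * (Real.log B - t * Real.log 2)
          ≤ (N : ℝ) * (- (e / (1 + e)) * (t * Real.log 2)) :=
            mul_le_mul_of_nonneg_left h3 (Nat.cast_nonneg _)
        _ = - ((N : ℝ) * ((e / (1 + e)) * (t * Real.log 2))) := by ring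
        _ ≤ - ((5 * (1 + e) / e * (Real.log x / Real.log 2)) *
              ((e / (1 + e)) * (t * Real.log 2))) := by
            apply neg_le_neg
            apply mul_le_mul_of_nonneg_right h2
            positivity
        _ = - (5 * t * Real.log x) := by
            field_simp
    push_cast
    have h7 : (3 - 3 * (t : ℝ)) * Real.log x ≤ 0 :=
      mul_nonpos_of_nonpos_of_nonneg (by linarith) hlx
    nlinarith [h6, h7]
  calc x ^ (2 * t + 3) * (B / 2 ^ t) ^ N
      = Real.exp (Real.log (x ^ (2 * t + 3) * (B / 2 ^ t) ^ N)) := (Real.exp_log hpos).symm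
    _ ≤ Real.exp 0 := Real.exp_le_exp.2 hlog
    _ = 1 := Real.exp_zero

/-- the powers of `θ` -/
theorem theta_pow_le (x M c e : ℝ) (L : ℕ) (hx : 1 ≤ x) (he : 0 < e) (hc : 0 < c)
    (hM : M = 30 * c / e) (hL : (L : ℝ) ≤ 5 * (c * (Real.log x / Real.log 2))) :
    (1 + 2 / M) ^ L ≤ x ^ (e / 2) := by
  have hx0 : 0 < x := by linarith
  have hlx : 0 ≤ Real.log x := Real.log_nonneg hx
  have hl2 : 0 < Real.log 2 := Real.log_pos (by norm_num)
  have hl2' : 2 ≤ 3 * Real.log 2 := by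
    have := Real.log_two_gt_d9
    linarith
  have hM0 : 0 < M := by rw [hM]; positivity
  calc (1 + 2 / M) ^ L ≤ (Real.exp (2 / M)) ^ L := by
        apply pow_le_pow_left₀ (by positivity)
        have := Real.add_one_le_exp (2 / M)
        linarith
    _ = Real.exp (L * (2 / M)) := by rw [← Real.exp_nat_mul]
    _ ≤ Real.exp (Real.log x * (e / 2)) := by
        apply Real.exp_le_exp.2
        calc (L : ℝ) * (2 / M) ≤ 5 * (c * (Real.log x / Real.log 2)) * (2 / M) :=
              mul_le_mul_of_nonneg_right hL (by positivity)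
          _ = Real.log x * (e / (3 * Real.log 2)) := by
              rw [hM]
              field_simp
              ring
          _ ≤ Real.log x * (e / 2) := by
              apply mul_le_mul_of_nonneg_left _ hlx
              exact div_le_div_of_nonneg_left he.le (by norm_num) hl2'
    _ = x ^ (e / 2) := by rw [Real.rpow_def_of_pos hx0]

/-- The choice of the parameters.
Proof. We may assume `ε ≤ 1/4`. Put `G = max 1 (k / √n)`, so `1 ≤ G ≤ n ^ (1/2 - ε)` and
`n / k ≥ √n / G ≥ n ^ ε`. Constants: `c₁ = 5 (1 + ε) / ε`, `M = 30 c₁ / ε`, `θ = 1 + 2 / M`,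
`A = 32 M^2`. Choose `t = ⌈(1 + ε) log₂ (A G^2)⌉`, so `(A G^2)^(1+ε) ≤ 2^t ≤ 2 (A G^2)^(1+ε)`
and `n / 2^t ≥ n ^ ε / (2 A^2)`; choose `j` with `c₁ log₂ n ≤ 2^j ≤ 2 c₁ log₂ n`; `m = ⌈n / k⌉`;
`s = √(2 n / 2^t)`.
(3) `1 + 2 h ≤ M (1 + 2/M)^h` is Bernoulli. (4) `θ ^ L ≤ exp (2 L / M) ≤ n ^ (ε/2)` for
`L = 2^(j+1) + 1 ≤ 5 c₁ log₂ n`, and `L n^(ε/2) ≤ n^ε / (2 A^2) ≤ n / 2^t`.
(6) `t + 1 ≤ √n / (2 G)`, so `m - t - 1 ≥ √n / (2 G)`, and the quotient of both sides is at most
`n^(2t+3) (A G^2 / 2^t)^(2^j) ≤ n^(2t+3) 2^(-t ε/(1+ε) c₁ log₂ n) = n^(2t+3-5t) ≤ 1`.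
(7) `2^j (2t+1) ≤ 2 c₁ log₂ n (2 (1+ε)(log₂ A + 2 log₂ G) + 3)`. -/
theorem params (ε : ℝ) (hε : 0 < ε) : ∃ C : ℝ, 0 < C ∧ ∃ n₀ : ℕ, ∀ n ≥ n₀, ∀ k : ℕ, 1 ≤ k →
    (k : ℝ) ≤ (n : ℝ) ^ (1 - ε) → ∃ t j m : ℕ, ∃ M θ s : ℝ,
      1 ≤ j ∧ 1 ≤ M ∧ 1 ≤ θ ∧ 0 < s ∧ (∀ h : ℕ, 1 + 2 * (h : ℝ) ≤ M * θ ^ h) ∧
      (n : ℝ) * (1 / 2) ^ t + (2 * 2 ^ j + 1) * θ ^ (2 * 2 ^ j + 1) ≤ s ^ 2 ∧
      t + 2 ≤ m ∧ (∀ b : ℕ, n ≤ k * b → m ≤ b) ∧
      (n : ℝ) ^ (2 * t) * (n * (n * (1 / 2) ^ t * (2 * M) ^ (2 * 2 ^ j) * s ^ (2 * 2 ^ j))) ≤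
        1 / n * (((m : ℝ) - t - 1) ^ (2 ^ j)) ^ 2 ∧
      (2 : ℝ) ^ j * (2 * t + 1) ≤ C * (Real.log n * (1 + Real.log (max 1 (k / Real.sqrt n)))) := by
  obtain ⟨e, he, he4, hee⟩ : ∃ e : ℝ, 0 < e ∧ e ≤ 1 / 4 ∧ e ≤ ε :=
    ⟨min ε (1 / 4), lt_min hε (by norm_num), min_le_right _ _, min_le_left _ _⟩
  have hl2 : 0 < Real.log 2 := Real.log_pos (by norm_num)
  obtain ⟨c, hc⟩ : ∃ c : ℝ, c = 5 * (1 + e) / e := ⟨_, rfl⟩
  have hc25 : 25 ≤ c := by
    rw [hc, le_div_iff₀ he]
    linarith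
  obtain ⟨M, hM⟩ : ∃ M : ℝ, M = 30 * c / e := ⟨_, rfl⟩
  have hM1 : 1 ≤ M := by
    rw [hM, le_div_iff₀ he]
    linarith
  obtain ⟨A, hA⟩ : ∃ A : ℝ, A = 32 * M ^ 2 := ⟨_, rfl⟩
  have hA1 : 1 ≤ A := by
    rw [hA]
    nlinarith
  have hlA : 0 ≤ Real.log A := Real.log_nonneg hA1
  -- the constant in the condition on `n`
  obtain ⟨K, hK⟩ : ∃ K : ℝ, K = 10 * c * A ^ 2 / Real.log 2 +
      2 * ((Real.log (2 * A ^ 2) + 1) / Real.log 2 + 1) := ⟨_, rfl⟩
  have hlA2 : 0 ≤ Real.log (2 * A ^ 2) := Real.log_nonneg (by nlinarith)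
  have hK0 : 0 < K := by
    rw [hK]
    positivity
  obtain ⟨n₁, hn₁⟩ := exists_log_le K (e / 2) hK0 (by linarith)
  refine ⟨2 * c / Real.log 2 * (3 + 4 * Real.log A / Real.log 2 + 8 / Real.log 2), by positivity,
    max n₁ 3, fun n hn k hk hkn => ?_⟩
  have hn1 : n₁ ≤ n := le_trans (le_max_left _ _) hn
  have hn3 : 3 ≤ n := le_trans (le_max_right _ _) hn
  have hbig := hn₁ n hn1
  obtain ⟨x, hx⟩ : ∃ x : ℝ, x = (n : ℝ) := ⟨_, rfl⟩
  rw [← hx] at hbig hkn ⊢
  have hx3 : 3 ≤ x := by rw [hx]; exact_mod_cast hn3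
  have hx0 : 0 < x := by linarith
  have hx1 : 1 ≤ x := by linarith
  have hlx1 : 1 ≤ Real.log x := by
    rw [Real.le_log_iff_exp_le hx0]
    have := Real.exp_one_lt_d9
    linarith
  have hlogx2 : Real.log 2 ≤ Real.log x := Real.log_le_log (by norm_num) (by linarith)
  have hkx : (k : ℝ) ≤ x ^ (1 - e) := hkn.trans (Real.rpow_le_rpow_of_exponent_le hx1 (by linarith))
  have hk0 : (0 : ℝ) < k := by exact_mod_cast hk
  have hsq : 0 < Real.sqrt x := Real.sqrt_pos.2 hx0
  obtain ⟨G, hG⟩ : ∃ G : ℝ, G = max 1 ((k : ℝ) / Real.sqrt x) := ⟨_, rfl⟩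
  rw [← hG]
  have hG1 : 1 ≤ G := by rw [hG]; exact le_max_left _ _
  have hG0 : 0 < G := by linarith
  have hGk : (k : ℝ) / Real.sqrt x ≤ G := by rw [hG]; exact le_max_right _ _
  have hsqx : Real.sqrt x = x ^ (1 / 2 : ℝ) := Real.sqrt_eq_rpow x
  have hGx : G ≤ x ^ (1 / 2 - e) := by
    rw [hG]
    apply max_le
    · exact Real.one_le_rpow hx1 (by linarith)
    · rw [div_le_iff₀ hsq, hsqx, ← Real.rpow_add hx0]
      refine hkx.trans (le_of_eq ?_)
      congr 1
      ring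
  have hlG : 0 ≤ Real.log G := Real.log_nonneg hG1
  obtain ⟨B, hB⟩ : ∃ B : ℝ, B = A * G ^ 2 := ⟨_, rfl⟩
  have hB1 : 1 ≤ B := by
    rw [hB]
    exact one_le_mul_of_one_le_of_one_le hA1 (one_le_pow₀ hG1)
  have hB0 : 0 < B := by linarith
  have hlB : Real.log B = Real.log A + 2 * Real.log G := by
    rw [hB, Real.log_mul (by positivity) (by positivity), Real.log_pow]
    push_cast
    ring
  have hlB0 : 0 ≤ Real.log B := Real.log_nonneg hB1
  -- the choice of `t`
  obtain ⟨t, ht1, htl, htu⟩ := exists_two_pow (B ^ (1 + e)) (Real.one_le_rpow hB1 (by linarith))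
  have htlog : (1 + e) * Real.log B ≤ t * Real.log 2 := by
    have h := Real.log_le_log (by positivity) htl
    rw [Real.log_rpow hB0, Real.log_pow] at h
    exact h
  have htlog2 : t * Real.log 2 ≤ Real.log 2 + (1 + e) * Real.log B := by
    have h := Real.log_le_log (by positivity) htu
    rw [Real.log_pow, Real.log_mul (by norm_num) (by positivity), Real.log_rpow hB0] at h
    exact h
  -- `B ^ (1 + e) ≤ A ^ 2 x ^ (1 - e)`
  have hBx : B ^ (1 + e) ≤ A ^ 2 * x ^ (1 - e) := by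
    rw [hB, Real.mul_rpow (by positivity) (by positivity)]
    apply mul_le_mul _ _ (by positivity) (by positivity)
    · calc A ^ (1 + e) ≤ A ^ (2 : ℝ) := Real.rpow_le_rpow_of_exponent_le hA1 (by linarith)
        _ = A ^ 2 := by norm_cast
    · calc (G ^ 2) ^ (1 + e) ≤ ((x ^ (1 / 2 - e)) ^ 2) ^ (1 + e) := by
            apply Real.rpow_le_rpow (by positivity) _ (by linarith)
            exact pow_le_pow_left₀ hG0.le hGx 2
        _ = x ^ ((1 / 2 - e) * 2 * (1 + e)) := by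
            rw [← Real.rpow_natCast, ← Real.rpow_mul hx0.le, ← Real.rpow_mul hx0.le]
            norm_num
        _ ≤ x ^ (1 - e) := by
            apply Real.rpow_le_rpow_of_exponent_le hx1
            nlinarith
  have h2t : (2 : ℝ) ^ t ≤ 2 * A ^ 2 * x ^ (1 - e) := by
    refine htu.trans ?_
    linarith
  obtain ⟨P, hP⟩ : ∃ P : ℝ, P = x * (1 / 2) ^ t := ⟨_, rfl⟩
  have hPdiv : P = x / 2 ^ t := by
    rw [hP, one_div, inv_pow]
    rfl
  have hP0 : 0 < P := by rw [hPdiv]; positivity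
  have hPx : P ≤ x := by
    rw [hPdiv]
    apply div_le_self hx0.le
    exact one_le_pow₀ (by norm_num)
  have hPl : x ^ e / (2 * A ^ 2) ≤ P := by
    rw [hPdiv, div_le_div_iff₀ (by positivity) (by positivity)]
    calc x ^ e * 2 ^ t ≤ x ^ e * (2 * A ^ 2 * x ^ (1 - e)) :=
          mul_le_mul_of_nonneg_left h2t (by positivity)
      _ = 2 * A ^ 2 * (x ^ e * x ^ (1 - e)) := by ring
      _ = 2 * A ^ 2 * x := by
          rw [← Real.rpow_add hx0]
          norm_num
      _ = x * (2 * A ^ 2) := by ring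
  -- the choice of `j`
  have hclog : 1 ≤ c * (Real.log x / Real.log 2) := by
    have h1 : 1 ≤ Real.log x / Real.log 2 := by
      rw [le_div_iff₀ hl2]
      linarith
    calc (1 : ℝ) ≤ 1 * 1 := by norm_num
      _ ≤ c * (Real.log x / Real.log 2) :=
        mul_le_mul (by linarith) h1 (by norm_num) (by linarith)
  obtain ⟨j, hj1, hjl, hju⟩ := exists_two_pow _ hclog
  -- the power of `x`
  have hxe : x ^ e = x ^ (e / 2) * x ^ (e / 2) := by
    rw [← Real.rpow_add hx0]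
    congr 1
    ring
  have hxe1 : 1 ≤ x ^ (e / 2) := Real.one_le_rpow hx1 (by linarith)
  have hbig1 : 10 * c * A ^ 2 / Real.log 2 * Real.log x ≤ x ^ (e / 2) := by
    refine le_trans ?_ hbig
    apply mul_le_mul_of_nonneg_right _ (by linarith)
    rw [hK]
    have : 0 ≤ 2 * ((Real.log (2 * A ^ 2) + 1) / Real.log 2 + 1) := by positivity
    linarith
  have hbig2 : 2 * ((Real.log (2 * A ^ 2) + 1) / Real.log 2 + 1) * Real.log x ≤ x ^ e := by
    have h1 : 2 * ((Real.log (2 * A ^ 2) + 1) / Real.log 2 + 1) * Real.log x ≤ x ^ (e / 2) := by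
      refine le_trans ?_ hbig
      apply mul_le_mul_of_nonneg_right _ (by linarith)
      rw [hK]
      have : 0 ≤ 10 * c * A ^ 2 / Real.log 2 := by positivity
      linarith
    rw [hxe]
    refine h1.trans ?_
    exact le_mul_of_one_le_right (by linarith) hxe1
  -- the bound for `t`
  have htx : 2 * ((t : ℝ) + 1) ≤ x ^ e := by
    refine le_trans ?_ hbig2
    have h1 : t * Real.log 2 ≤ Real.log (2 * A ^ 2) + Real.log x := by
      have h := Real.log_le_log (by positivity) h2t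
      rw [Real.log_pow, Real.log_mul (by positivity) (by positivity), Real.log_rpow hx0] at h
      have h4 : (1 - e) * Real.log x ≤ 1 * Real.log x :=
        mul_le_mul_of_nonneg_right (by linarith) (by linarith)
      linarith
    have h2 : (t : ℝ) ≤ (Real.log (2 * A ^ 2) + Real.log x) / Real.log 2 := by
      rw [le_div_iff₀ hl2]
      exact h1
    have h3 : (Real.log (2 * A ^ 2) + Real.log x) / Real.log 2 ≤
        (Real.log (2 * A ^ 2) + 1) / Real.log 2 * Real.log x := by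
      rw [div_mul_eq_mul_div]
      apply div_le_div_of_nonneg_right _ hl2.le
      have h4 : Real.log (2 * A ^ 2) * 1 ≤ Real.log (2 * A ^ 2) * Real.log x :=
        mul_le_mul_of_nonneg_left hlx1 hlA2
      linarith
    have h5 : 2 * ((Real.log (2 * A ^ 2) + 1) / Real.log 2 + 1) * Real.log x =
        2 * ((Real.log (2 * A ^ 2) + 1) / Real.log 2 * Real.log x) + 2 * Real.log x := by ring
    linarith
  -- the number `m`
  obtain ⟨m, hm⟩ : ∃ m : ℕ, m = ⌈x / (k : ℝ)⌉₊ := ⟨_, rfl⟩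
  have hmx : x / k ≤ m := by
    rw [hm]
    exact Nat.le_ceil _
  have hkG : x / k ≥ Real.sqrt x / G := by
    rw [ge_iff_le, div_le_div_iff₀ hG0 hk0]
    rw [div_le_iff₀ hsq] at hGk
    calc Real.sqrt x * k ≤ Real.sqrt x * (G * Real.sqrt x) :=
          mul_le_mul_of_nonneg_left hGk hsq.le
      _ = (Real.sqrt x * Real.sqrt x) * G := by ring
      _ = x * G := by rw [Real.mul_self_sqrt hx0.le]
  have hsG : x ^ e ≤ Real.sqrt x / G := by
    rw [le_div_iff₀ hG0]
    calc x ^ e * G ≤ x ^ e * x ^ (1 / 2 - e) := mul_le_mul_of_nonneg_left hGx (by positivity)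
      _ = Real.sqrt x := by
          rw [← Real.rpow_add hx0, hsqx]
          congr 1
          ring
  have hmq : Real.sqrt x / (2 * G) ≤ (m : ℝ) - t - 1 := by
    have h1 : Real.sqrt x / (2 * G) = (Real.sqrt x / G) / 2 := by
      field_simp
    rw [h1]
    linarith
  have htm : t + 2 ≤ m := by
    have h1 : (t : ℝ) + 2 ≤ m := by
      have : (0 : ℝ) ≤ t := Nat.cast_nonneg _
      linarith
    exact_mod_cast h1
  -- the number `s`
  refine ⟨t, j, m, M, 1 + 2 / M, Real.sqrt (2 * P), hj1, hM1, ?_, Real.sqrt_pos.2 (by positivity),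
    ?_, ?_, htm, ?_, ?_, ?_⟩
  · have : 0 ≤ 2 / M := by positivity
    linarith
  · intro h
    have h1 := one_add_mul_le_pow (a := 2 / M) (by
      have : 0 ≤ 2 / M := by positivity
      linarith) h
    calc 1 + 2 * (h : ℝ) ≤ M + 2 * h := by linarith
      _ = M * (1 + h * (2 / M)) := by field_simp
      _ ≤ M * (1 + 2 / M) ^ h := mul_le_mul_of_nonneg_left h1 (by linarith)
  · rw [← hP, Real.sq_sqrt (by positivity)]
    have hL : (((2 * 2 ^ j + 1 : ℕ)) : ℝ) ≤ 5 * (c * (Real.log x / Real.log 2)) := by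
      push_cast
      linarith
    have h1 := theta_pow_le x M c e (2 * 2 ^ j + 1) hx1 he (by linarith) hM hL
    have h2 : (2 * 2 ^ j + 1 : ℝ) ≤ 5 * (c * (Real.log x / Real.log 2)) := by
      push_cast at hL
      exact hL
    have h3 : (2 * 2 ^ j + 1 : ℝ) * (1 + 2 / M) ^ (2 * 2 ^ j + 1) ≤ P := by
      calc (2 * 2 ^ j + 1 : ℝ) * (1 + 2 / M) ^ (2 * 2 ^ j + 1)
          ≤ (5 * (c * (Real.log x / Real.log 2))) * x ^ (e / 2) := by
            apply mul_le_mul h2 h1 (by positivity) (by positivity)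
        _ = (10 * c * A ^ 2 / Real.log 2 * Real.log x) * x ^ (e / 2) / (2 * A ^ 2) := by
            field_simp
            ring
        _ ≤ x ^ (e / 2) * x ^ (e / 2) / (2 * A ^ 2) := by
            apply div_le_div_of_nonneg_right _ (by positivity)
            exact mul_le_mul_of_nonneg_right hbig1 (by positivity)
        _ = x ^ e / (2 * A ^ 2) := by rw [← hxe]
        _ ≤ P := hPl
    linarith
  · intro b hb
    rw [hm]
    apply Nat.ceil_le.2
    rw [div_le_iff₀ hk0, hx]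
    have : ((n : ℕ) : ℝ) ≤ ((k * b : ℕ) : ℝ) := by exact_mod_cast hb
    push_cast at this
    linarith
  · have hQ0 : 0 ≤ Real.sqrt x / (2 * G) := by positivity
    have hQ : x / (4 * G ^ 2) ≤ ((m : ℝ) - t - 1) ^ 2 := by
      calc x / (4 * G ^ 2) = (Real.sqrt x / (2 * G)) ^ 2 := by
            rw [div_pow, Real.sq_sqrt hx0.le]
            ring
        _ ≤ _ := pow_le_pow_left₀ hQ0 hmq 2
    have hs : Real.sqrt (2 * P) ^ (2 * 2 ^ j) = (2 * P) ^ (2 ^ j) := by
      rw [pow_mul, Real.sq_sqrt (by positivity)]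
    have hMM : (2 * M) ^ (2 * 2 ^ j) = (4 * M ^ 2) ^ (2 ^ j) := by
      rw [pow_mul]
      congr 1
      ring
    have hN : 5 * (1 + e) / e * (Real.log x / Real.log 2) ≤ ((2 ^ j : ℕ) : ℝ) := by
      rw [← hc]
      push_cast
      exact hjl
    have hkey := pow_mul_pow_le_one x B e t (2 ^ j) hx1 hB0 he ht1 htlog hN
    have hprod : 4 * M ^ 2 * (2 * P) = x / (4 * G ^ 2) * (B / 2 ^ t) := by
      rw [hPdiv, hB, hA]
      field_simp
      ring
    rw [← hP, hs, hMM]
    calc x ^ (2 * t) * (x * (P * (4 * M ^ 2) ^ (2 ^ j) * (2 * P) ^ (2 ^ j)))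
        = x ^ (2 * t) * (x * (P * (4 * M ^ 2 * (2 * P)) ^ (2 ^ j))) := by
          rw [mul_pow (4 * M ^ 2) (2 * P)]
          ring
      _ ≤ x ^ (2 * t) * (x * (x * (4 * M ^ 2 * (2 * P)) ^ (2 ^ j))) := by
          apply mul_le_mul_of_nonneg_left _ (by positivity)
          apply mul_le_mul_of_nonneg_left _ hx0.le
          exact mul_le_mul_of_nonneg_right hPx (by positivity)
      _ = 1 / x * ((x / (4 * G ^ 2)) ^ (2 ^ j) * (x ^ (2 * t + 3) * (B / 2 ^ t) ^ (2 ^ j))) := by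
          rw [hprod, mul_pow]
          field_simp
          ring
      _ ≤ 1 / x * ((x / (4 * G ^ 2)) ^ (2 ^ j) * 1) := by
          apply mul_le_mul_of_nonneg_left _ (by positivity)
          exact mul_le_mul_of_nonneg_left hkey (by positivity)
      _ = 1 / x * (x / (4 * G ^ 2)) ^ (2 ^ j) := by rw [mul_one]
      _ ≤ 1 / x * (((m : ℝ) - t - 1) ^ 2) ^ (2 ^ j) := by
          apply mul_le_mul_of_nonneg_left _ (by positivity)
          exact pow_le_pow_left₀ (by positivity) hQ _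
      _ = 1 / x * (((m : ℝ) - t - 1) ^ (2 ^ j)) ^ 2 := by
          rw [← pow_mul, ← pow_mul, Nat.mul_comm]
  · have h1 : 2 * (t : ℝ) + 1 ≤ 3 + 4 * (Real.log A + 2 * Real.log G) / Real.log 2 := by
      have h2 : (t : ℝ) * Real.log 2 ≤ Real.log 2 + 2 * (Real.log A + 2 * Real.log G) := by
        rw [← hlB]
        have h4 : (1 + e) * Real.log B ≤ 2 * Real.log B :=
          mul_le_mul_of_nonneg_right (by linarith) hlB0
        linarith
      have h3 : (t : ℝ) ≤ 1 + 2 * (Real.log A + 2 * Real.log G) / Real.log 2 := by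
        rw [← sub_le_iff_le_add', le_div_iff₀ hl2]
        linarith
      have h4 : 4 * (Real.log A + 2 * Real.log G) / Real.log 2 =
          2 * (2 * (Real.log A + 2 * Real.log G) / Real.log 2) := by ring
      linarith
    have h5 : 3 + 4 * (Real.log A + 2 * Real.log G) / Real.log 2 ≤
        (3 + 4 * Real.log A / Real.log 2 + 8 / Real.log 2) * (1 + Real.log G) := by
      have h6 : 0 ≤ 4 * Real.log A / Real.log 2 := by positivity
      have h7 : 0 ≤ 8 / Real.log 2 := by positivity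
      have h8 : 4 * (Real.log A + 2 * Real.log G) / Real.log 2 =
          4 * Real.log A / Real.log 2 + 8 / Real.log 2 * Real.log G := by
        field_simp
        ring
      rw [h8]
      have h9 : (3 + 4 * Real.log A / Real.log 2 + 8 / Real.log 2) * (1 + Real.log G) =
          3 + 4 * Real.log A / Real.log 2 + 8 / Real.log 2 * Real.log G + 8 / Real.log 2 +
            3 * Real.log G + 4 * Real.log A / Real.log 2 * Real.log G := by ring
      have h10 := mul_nonneg h6 hlG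
      linarith
    calc (2 : ℝ) ^ j * (2 * t + 1)
        ≤ (2 * (c * (Real.log x / Real.log 2))) *
          ((3 + 4 * Real.log A / Real.log 2 + 8 / Real.log 2) * (1 + Real.log G)) := by
          apply mul_le_mul hju (h1.trans h5) (by positivity) (by positivity)
      _ = 2 * c / Real.log 2 * (3 + 4 * Real.log A / Real.log 2 + 8 / Real.log 2) *
          (Real.log x * (1 + Real.log G)) := by
          field_simp

end Pool.Agent.ColorUp
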