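import Pool.Agent.ColorUp.Defs

namespace Pool.Agent.ColorUp

open Finset BigOperators
open scoped Classical
open Pool.Agent.ColorRef

set_option linter.unusedSectionVars false

variable {n : ℕ}

/-- The polynomial of an entry of the sign matrix. -/
noncomputable def Sp (u w : Fin n) : MvPolynomial (Pair n) ℝ :=
  if h : u < w then MvPolynomial.C 2 * MvPolynomial.X ⟨(u, w), h⟩ - 1
  else if h : w < u then MvPolynomial.C 2 * MvPolynomial.X ⟨(w, u), h⟩ - 1 else 0

lemma totalDegree_lin (e : Pair n) :
    (MvPolynomial.C 2 * MvPolynomial.X e - 1 : MvPolynomial (Pair n) ℝ).totalDegree ≤ 1 := by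
  refine (MvPolynomial.totalDegree_sub _ _).trans ?_
  refine max_le ((MvPolynomial.totalDegree_mul _ _).trans ?_) ?_
  · rw [MvPolynomial.totalDegree_C, MvPolynomial.totalDegree_X]
  · rw [MvPolynomial.totalDegree_one]; exact Nat.zero_le _

lemma Sp_degree (u w : Fin n) : (Sp u w).totalDegree ≤ 1 := by
  unfold Sp
  split_ifs
  · exact totalDegree_lin _
  · exact totalDegree_lin _
  · rw [MvPolynomial.totalDegree_zero]; exact Nat.zero_le _

lemma Sp_eval (y : Pair n → Bool) (u w : Fin n) :
    MvPolynomial.eval (bvec y) (Sp u w) = Sx y u w := by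
  have h1 : ∀ e : Pair n, 2 * bvec y e - 1 = sg (y e) := by
    intro e
    unfold bvec sg
    cases y e <;> norm_num
  unfold Sp Sx
  split_ifs
  · simp [h1]
  · simp [h1]
  · simp

/-- The polynomial of the indicator of the common non-neighbourhood. -/
noncomputable def nup (I : Finset (Fin n)) (u : Fin n) : MvPolynomial (Pair n) ℝ :=
  if u ∈ I then 0 else ∏ i ∈ I, MvPolynomial.C (1 / 2) * (1 - Sp i u)

lemma nup_degree (I : Finset (Fin n)) (u : Fin n) : (nup I u).totalDegree ≤ I.card := by
  unfold nup
  split_ifs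
  · rw [MvPolynomial.totalDegree_zero]; exact Nat.zero_le _
  · refine (MvPolynomial.totalDegree_finsetProd _ _).trans ?_
    rw [card_eq_sum_ones]
    apply sum_le_sum
    intro i _
    refine (MvPolynomial.totalDegree_mul _ _).trans ?_
    rw [MvPolynomial.totalDegree_C, zero_add]
    refine (MvPolynomial.totalDegree_sub _ _).trans (max_le ?_ (Sp_degree i u))
    rw [MvPolynomial.totalDegree_one]; exact Nat.zero_le _

lemma nup_eval (I : Finset (Fin n)) (y : Pair n → Bool) (u : Fin n) :
    MvPolynomial.eval (bvec y) (nup I u) = nu I y u := by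
  unfold nup nu
  split_ifs
  · simp
  · rw [map_prod]
    apply prod_congr rfl
    intro i _
    simp only [map_mul, MvPolynomial.eval_C, map_sub, map_one, Sp_eval]
    ring

/-- The matrix of polynomials. -/
noncomputable def Mp (I : Finset (Fin n)) : Matrix (Fin n) (Fin n) (MvPolynomial (Pair n) ℝ) :=
  Matrix.of (fun u w => nup I u * Sp u w * nup I w)

lemma Mp_degree (I : Finset (Fin n)) (u w : Fin n) :
    (Mp I u w).totalDegree ≤ 2 * I.card + 1 := by
  have h1 := MvPolynomial.totalDegree_mul (nup I u * Sp u w) (nup I w)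
  have h2 := MvPolynomial.totalDegree_mul (nup I u) (Sp u w)
  have h3 := nup_degree I u
  have h4 := nup_degree I w
  have h5 := Sp_degree u w
  show (nup I u * Sp u w * nup I w).totalDegree ≤ _
  omega

lemma Mp_pow_degree (I : Finset (Fin n)) : ∀ (r : ℕ) (u w : Fin n),
    ((Mp I ^ r) u w).totalDegree ≤ r * (2 * I.card + 1)
  | 0, u, w => by
    rw [pow_zero, Matrix.one_apply]
    split_ifs
    · rw [MvPolynomial.totalDegree_one]; exact Nat.zero_le _
    · rw [MvPolynomial.totalDegree_zero]; exact Nat.zero_le _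
  | r + 1, u, w => by
    rw [pow_succ, Matrix.mul_apply]
    apply MvPolynomial.totalDegree_finsetSum_le
    intro j _
    have h1 := MvPolynomial.totalDegree_mul ((Mp I ^ r) u j) (Mp I j w)
    have h2 := Mp_pow_degree I r u j
    have h3 := Mp_degree I j w
    have h4 : (r + 1) * (2 * I.card + 1) = r * (2 * I.card + 1) + (2 * I.card + 1) := by ring
    omega

lemma Mp_map (I : Finset (Fin n)) (y : Pair n → Bool) :
    (MvPolynomial.eval (bvec y)).mapMatrix (Mp I) = Mx I y := by
  ext u w
  simp [Mp, Mx, nup_eval, Sp_eval]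

/-- The trace polynomial is a polynomial of degree at most `r (2 t + 1)` in the edge indicators
(`bvec` is in ColorRef/Poly.lean; `sg (y e) = 2 * bvec y e - 1`). Build the matrix over
`MvPolynomial (Pair n) ℝ`, bound the degree of the entries of the powers by induction
(`MvPolynomial.totalDegree_finset_sum`, `MvPolynomial.totalDegree_mul`) and evaluate with
`RingHom.mapMatrix`. -/
theorem exists_poly (t r : ℕ) : ∃ p : MvPolynomial (Pair n) ℝ,
    p.totalDegree ≤ r * (2 * t + 1) ∧
      ∀ y : Pair n → Bool, MvPolynomial.eval (bvec y) p = tf t r y := by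
  refine ⟨∑ I ∈ powersetCard t (univ : Finset (Fin n)), (Mp I ^ r).trace, ?_, fun y => ?_⟩
  · apply MvPolynomial.totalDegree_finsetSum_le
    intro I hI
    rw [mem_powersetCard] at hI
    unfold Matrix.trace
    apply MvPolynomial.totalDegree_finsetSum_le
    intro j _
    have := Mp_pow_degree I r j j
    rw [hI.2] at this
    exact this
  · unfold tf
    rw [map_sum]
    apply sum_congr rfl
    intro I _
    have h1 : MvPolynomial.eval (bvec y) (Mp I ^ r).trace =
        ((MvPolynomial.eval (bvec y)).mapMatrix (Mp I ^ r)).trace := by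
      simp [Matrix.trace]
    rw [h1, map_pow, Mp_map]

/-- A `k`-colourable graph on `n` vertices has an independent set with at least `n / k` vertices
(`eqG` and `toG` are in ColorRef/Poly.lean). -/
theorem exists_indep (k : ℕ) (y : Pair n → Bool) (hy : (toG y).Colorable k) :
    ∃ K : Finset (Fin n), n ≤ k * K.card ∧ ∀ u ∈ K, ∀ w ∈ K, u ≠ w → Sx y u w = -1 := by
  obtain ⟨C⟩ := hy
  have hK : ∀ c : Fin k, ∀ u ∈ univ.filter (fun u => C u = c), ∀ w ∈ univ.filter
      (fun u => C u = c), u ≠ w → Sx y u w = -1 := by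
    intro c u hu w hw huw
    rw [mem_filter] at hu hw
    have hnadj : ¬ (toG y).Adj u w := fun h => C.valid h (hu.2.trans hw.2.symm)
    have hsg : ∀ e : Pair n, ¬ (toG y).Adj e.1.1 e.1.2 → sg (y e) = -1 := by
      intro e he
      rw [toG_adj, Bool.not_eq_true] at he
      unfold sg
      rw [he]
      norm_num
    unfold Sx
    rcases lt_or_gt_of_ne huw with h | h
    · rw [dif_pos h]
      exact hsg ⟨(u, w), h⟩ hnadj
    · rw [dif_neg (not_lt.2 h.le), dif_pos h]
      exact hsg ⟨(w, u), h⟩ (fun h' => hnadj h'.symm)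
  by_contra hcon
  push Not at hcon
  have h1 : ∀ c : Fin k, k * (univ.filter (fun u => C u = c)).card < n := by
    intro c
    by_contra h
    obtain ⟨u, hu, w, hw, huw, h2⟩ := hcon (univ.filter (fun u => C u = c)) (not_lt.1 h)
    exact h2 (hK c u hu w hw huw)
  have h2 : ∑ c : Fin k, (univ.filter (fun u => C u = c)).card = n := by
    rw [← card_eq_sum_card_fiberwise (s := univ) (t := univ) (f := fun u => C u)
      (fun u _ => mem_coe.2 (mem_univ _))]
    simp
  rcases Nat.eq_zero_or_pos k with hk | hk
  · subst hk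
    have hn : n = 0 := by
      rw [← h2]; simp
    obtain ⟨u, hu, -⟩ := hcon ∅ (by omega)
    simp at hu
  · have h3 : ∑ c : Fin k, k * (univ.filter (fun u => C u = c)).card < ∑ _c : Fin k, n := by
      apply sum_lt_sum_of_nonempty
      · exact ⟨⟨0, hk⟩, mem_univ _⟩
      · intro c _
        exact h1 c
    rw [← mul_sum, h2] at h3
    simp at h3

end Pool.Agent.ColorUp
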