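import Pool.Agent.ColorUp.Exp
import Pool.Agent.ColorUp.Low
import Pool.Agent.ColorUp.PolyUp
import Pool.Agent.ColorUp.NumUp

/-!
The refuting polynomial for one value of `n`.
-/

namespace Pool.Agent.ColorUp

open Finset BigOperators
open scoped Classical
open Pool.Agent.ColorRef

set_option linter.unusedSectionVars false

variable {n : ℕ}

/-- Second moment of the trace polynomial. -/
theorem expect_tf_sq (t : ℕ) (M θ s : ℝ) (hM : 1 ≤ M) (hθ : 1 ≤ θ) (hs : 0 < s)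
    (hMθ : ∀ h : ℕ, 1 + 2 * (h : ℝ) ≤ M * θ ^ h) (r : ℕ) (hr : 1 ≤ r)
    (hP : (n : ℝ) * (1 / 2) ^ t + (2 * r + 1 : ℕ) * θ ^ (2 * r + 1) ≤ s ^ 2) :
    𝔼 y : Pair n → Bool, tf t r y ^ 2 ≤
      (n : ℝ) ^ (2 * t) * (n * (n * ((1 / 2) ^ t * (2 * M) ^ (2 * r) * s ^ (2 * r)))) := by
  have h1 : ∀ y ∈ (univ : Finset (Pair n → Bool)), tf t r y ^ 2 ≤
      (n : ℝ) ^ t * ∑ I ∈ powersetCard t (univ : Finset (Fin n)),
        n * ((Mx I y) ^ (2 * r)).trace := by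
    intro y _
    unfold tf
    have h2 := sq_sum_le_card_mul_sum_sq (s := powersetCard t (univ : Finset (Fin n)))
      (f := fun I => ((Mx I y) ^ r).trace)
    have h3 : ∑ I ∈ powersetCard t (univ : Finset (Fin n)), ((Mx I y) ^ r).trace ^ 2 ≤
        ∑ I ∈ powersetCard t (univ : Finset (Fin n)), n * ((Mx I y) ^ (2 * r)).trace :=
      sum_le_sum (fun I _ => trace_sq_le _ (Mx_symm I y) r)
    have h4 : ((powersetCard t (univ : Finset (Fin n))).card : ℝ) ≤ (n : ℝ) ^ t := by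
      rw [card_powersetCard, card_univ, Fintype.card_fin]
      exact_mod_cast Nat.choose_le_pow n t
    have h5 : 0 ≤ ∑ I ∈ powersetCard t (univ : Finset (Fin n)), ((Mx I y) ^ r).trace ^ 2 :=
      sum_nonneg (fun I _ => sq_nonneg _)
    calc _ ≤ ((powersetCard t (univ : Finset (Fin n))).card : ℝ) *
          ∑ I ∈ powersetCard t (univ : Finset (Fin n)), ((Mx I y) ^ r).trace ^ 2 := h2
      _ ≤ (n : ℝ) ^ t * ∑ I ∈ powersetCard t (univ : Finset (Fin n)),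
          ((Mx I y) ^ r).trace ^ 2 := mul_le_mul_of_nonneg_right h4 h5
      _ ≤ _ := mul_le_mul_of_nonneg_left h3 (by positivity)
  refine (expect_le_expect h1).trans ?_
  rw [← mul_expect, expect_sum_comm]
  simp only [← mul_expect]
  have h6 : ∀ I ∈ powersetCard t (univ : Finset (Fin n)),
      (n : ℝ) * (𝔼 y : Pair n → Bool, ((Mx I y) ^ (2 * r)).trace) ≤
      n * (n * ((1 / 2) ^ t * (2 * M) ^ (2 * r) * s ^ (2 * r))) := by
    intro I hI
    apply mul_le_mul_of_nonneg_left _ (Nat.cast_nonneg _)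
    have hIc : I.card = t := (mem_powersetCard.1 hI).2
    exact expect_trace_le I ((1 / 2 : ℝ) ^ t) M θ s (by rw [hIc]) hM hθ hs hMθ (2 * r)
      (by omega) hP
  have hK : 0 ≤ (n : ℝ) * (n * ((1 / 2) ^ t * (2 * M) ^ (2 * r) * s ^ (2 * r))) := by
    positivity
  calc (n : ℝ) ^ t * ∑ I ∈ powersetCard t (univ : Finset (Fin n)),
        (n : ℝ) * (𝔼 y : Pair n → Bool, ((Mx I y) ^ (2 * r)).trace)
      ≤ (n : ℝ) ^ t * ∑ I ∈ powersetCard t (univ : Finset (Fin n)),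
          n * (n * ((1 / 2) ^ t * (2 * M) ^ (2 * r) * s ^ (2 * r))) :=
        mul_le_mul_of_nonneg_left (sum_le_sum h6) (by positivity)
    _ = (n : ℝ) ^ t * ((n.choose t : ℝ) *
          (n * (n * ((1 / 2) ^ t * (2 * M) ^ (2 * r) * s ^ (2 * r))))) := by
        rw [sum_const, card_powersetCard, card_univ, Fintype.card_fin, nsmul_eq_mul]
    _ ≤ (n : ℝ) ^ t * ((n : ℝ) ^ t *
          (n * (n * ((1 / 2) ^ t * (2 * M) ^ (2 * r) * s ^ (2 * r))))) := by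
        apply mul_le_mul_of_nonneg_left _ (by positivity)
        apply mul_le_mul_of_nonneg_right _ hK
        exact_mod_cast Nat.choose_le_pow n t
    _ = _ := by
        have h7 : (n : ℝ) ^ (2 * t) = (n : ℝ) ^ t * (n : ℝ) ^ t := by rw [← pow_add, two_mul]
        rw [h7]; ring

/-- The refuting polynomial. -/
theorem one_up (hn : 4 ≤ n) (k t j m : ℕ) (M θ s : ℝ) (hj : 1 ≤ j) (hM : 1 ≤ M) (hθ : 1 ≤ θ)
    (hs : 0 < s) (hMθ : ∀ h : ℕ, 1 + 2 * (h : ℝ) ≤ M * θ ^ h)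
    (hP : (n : ℝ) * (1 / 2) ^ t + (2 * 2 ^ j + 1) * θ ^ (2 * 2 ^ j + 1) ≤ s ^ 2)
    (hm : t + 2 ≤ m) (hk : ∀ b : ℕ, n ≤ k * b → m ≤ b)
    (hbd : (n : ℝ) ^ (2 * t) * (n * (n * (1 / 2) ^ t * (2 * M) ^ (2 * 2 ^ j) *
      s ^ (2 * 2 ^ j))) ≤ 1 / n * (((m : ℝ) - t - 1) ^ (2 ^ j)) ^ 2) :
    ∃ p : MvPolynomial (Pair n) ℝ, p.totalDegree ≤ 2 ^ j * (2 * t + 1) ∧
      (∀ y : Pair n → Bool, (toG y).Colorable k → 1 ≤ MvPolynomial.eval (bvec y) p) ∧
      (𝔼 y : Pair n → Bool, MvPolynomial.eval (bvec y) p) = 0 ∧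
      (𝔼 y : Pair n → Bool, MvPolynomial.eval (bvec y) p ^ 2) ≤ 4 / n := by
  obtain ⟨p, hp1, hp2⟩ := exists_poly (n := n) t (2 ^ j)
  set P0 : ℝ := ((m : ℝ) - t - 1) ^ (2 ^ j) with hP0
  set μ : ℝ := 𝔼 y : Pair n → Bool, tf t (2 ^ j) y with hμ
  have hn4 : (4 : ℝ) ≤ n := by exact_mod_cast hn
  have hn0 : (0 : ℝ) < n := by linarith
  have hm' : (t : ℝ) + 2 ≤ m := by exact_mod_cast hm
  have hP0pos : 0 < P0 := by
    rw [hP0]
    apply pow_pos
    linarith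
  have hsq : 𝔼 y : Pair n → Bool, tf t (2 ^ j) y ^ 2 ≤ 1 / n * P0 ^ 2 := by
    refine le_trans ?_ hbd
    refine (expect_tf_sq t M θ s hM hθ hs hMθ (2 ^ j) (Nat.one_le_two_pow) ?_).trans
      (le_of_eq ?_)
    · push_cast
      exact hP
    · ring
  have hjensen : μ ^ 2 ≤ 𝔼 y : Pair n → Bool, tf t (2 ^ j) y ^ 2 := by
    have h1 : 0 ≤ 𝔼 y : Pair n → Bool, (tf t (2 ^ j) y - μ) ^ 2 :=
      expect_nonneg (fun y _ => sq_nonneg _)
    have h2 : (𝔼 y : Pair n → Bool, (tf t (2 ^ j) y - μ) ^ 2) =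
        (𝔼 y : Pair n → Bool, tf t (2 ^ j) y ^ 2) - μ ^ 2 := by
      have h3 : ∀ y : Pair n → Bool, (tf t (2 ^ j) y - μ) ^ 2 =
          tf t (2 ^ j) y ^ 2 + ((-2 * μ) * tf t (2 ^ j) y + μ ^ 2) := by intro y; ring
      simp only [h3]
      rw [expect_add_distrib, expect_add_distrib, ← mul_expect, expect_const univ_nonempty,
        ← hμ]
      ring
    linarith
  have hμle : μ ≤ P0 / 2 := by
    have h1 : μ ^ 2 ≤ (P0 / 2) ^ 2 := by
      refine hjensen.trans (hsq.trans ?_)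
      have : (1 : ℝ) / n ≤ 1 / 4 := one_div_le_one_div_of_le (by norm_num) hn4
      nlinarith [sq_nonneg P0]
    exact le_of_sq_le_sq h1 (by positivity)
  have hden : P0 / 2 ≤ P0 - μ := by linarith
  have hdpos : 0 < P0 - μ := by linarith
  refine ⟨MvPolynomial.C (P0 - μ)⁻¹ * (p - MvPolynomial.C μ), ?_, ?_, ?_, ?_⟩
  · refine (MvPolynomial.totalDegree_mul _ _).trans ?_
    rw [MvPolynomial.totalDegree_C, zero_add]
    refine (MvPolynomial.totalDegree_sub _ _).trans ?_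
    rw [MvPolynomial.totalDegree_C]
    exact max_le hp1 (Nat.zero_le _)
  · intro y hy
    obtain ⟨K, hK1, hK2⟩ := exists_indep k y hy
    have h1 := low y K hK2 t j m hj hm (hk _ hK1)
    simp only [map_mul, map_sub, MvPolynomial.eval_C, hp2]
    rw [inv_mul_eq_div, le_div_iff₀ hdpos, one_mul]
    linarith
  · simp only [map_mul, map_sub, MvPolynomial.eval_C, hp2]
    rw [← mul_expect, expect_sub_distrib, expect_const univ_nonempty, ← hμ, sub_self, mul_zero]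
  · simp only [map_mul, map_sub, MvPolynomial.eval_C, hp2]
    have h2 : ∀ y : Pair n → Bool, ((P0 - μ)⁻¹ * (tf t (2 ^ j) y - μ)) ^ 2 =
        ((P0 - μ)⁻¹) ^ 2 * (tf t (2 ^ j) y ^ 2 + ((-2 * μ) * tf t (2 ^ j) y + μ ^ 2)) := by
      intro y; ring
    simp only [h2]
    rw [← mul_expect, expect_add_distrib, expect_add_distrib, ← mul_expect,
      expect_const univ_nonempty, ← hμ]
    have h3 : ((P0 - μ)⁻¹) ^ 2 ≤ ((P0 / 2)⁻¹) ^ 2 := by
      apply pow_le_pow_left₀ (by positivity)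
      exact inv_anti₀ (by positivity) hden
    have h4 : (𝔼 y : Pair n → Bool, tf t (2 ^ j) y ^ 2) + (-2 * μ * μ + μ ^ 2) ≤
        1 / n * P0 ^ 2 := by nlinarith [sq_nonneg μ]
    have h5 : 0 ≤ (𝔼 y : Pair n → Bool, tf t (2 ^ j) y ^ 2) + (-2 * μ * μ + μ ^ 2) := by
      nlinarith
    calc ((P0 - μ)⁻¹) ^ 2 *
          ((𝔼 y : Pair n → Bool, tf t (2 ^ j) y ^ 2) + (-2 * μ * μ + μ ^ 2))
        ≤ ((P0 / 2)⁻¹) ^ 2 * (1 / n * P0 ^ 2) := mul_le_mul h3 h4 h5 (by positivity)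
      _ = 4 / n := by field_simp; ring

end Pool.Agent.ColorUp
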