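import Pool.Agent.ColorRef.Poly

/-!
Trace polynomials on common non-neighbourhoods: definitions.
-/

namespace Pool.Agent.ColorUp

open Finset BigOperators
open scoped Classical
open Pool.Agent.ColorRef

set_option linter.unusedSectionVars false

variable {n : ℕ}

/-- Sign matrix of the graph `y`: `1` for edges, `-1` for non-edges, `0` on the diagonal. -/
noncomputable def Sx (y : Pair n → Bool) (u w : Fin n) : ℝ :=
  if h : u < w then sg (y ⟨(u, w), h⟩) else if h : w < u then sg (y ⟨(w, u), h⟩) else 0

/-- Indicator of the common non-neighbourhood of `I`. -/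
noncomputable def nu (I : Finset (Fin n)) (y : Pair n → Bool) (u : Fin n) : ℝ :=
  if u ∈ I then 0 else ∏ i ∈ I, (1 - Sx y i u) / 2

/-- The sign matrix on the common non-neighbourhood of `I`. -/
noncomputable def Mx (I : Finset (Fin n)) (y : Pair n → Bool) : Matrix (Fin n) (Fin n) ℝ :=
  Matrix.of (fun u w => nu I y u * Sx y u w * nu I y w)

/-- The trace polynomial. -/
noncomputable def tf (t r : ℕ) (y : Pair n → Bool) : ℝ :=
  ∑ I ∈ powersetCard t (univ : Finset (Fin n)), ((Mx I y) ^ r).trace

lemma Sx_symm (y : Pair n → Bool) (u w : Fin n) : Sx y u w = Sx y w u := by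
  unfold Sx
  rcases lt_trichotomy u w with h | h | h
  · rw [dif_pos h, dif_neg (not_lt.2 h.le), dif_pos h]
  · subst h; rfl
  · rw [dif_neg (not_lt.2 h.le), dif_pos h, dif_pos h]

lemma Sx_self (y : Pair n → Bool) (u : Fin n) : Sx y u u = 0 := by
  unfold Sx
  rw [dif_neg (lt_irrefl u), dif_neg (lt_irrefl u)]

lemma Mx_apply (I : Finset (Fin n)) (y : Pair n → Bool) (u w : Fin n) :
    Mx I y u w = nu I y u * Sx y u w * nu I y w := rfl

lemma Mx_symm (I : Finset (Fin n)) (y : Pair n → Bool) : (Mx I y).transpose = Mx I y := by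
  ext u w
  rw [Matrix.transpose_apply, Mx_apply, Mx_apply, Sx_symm y w u]
  ring

end Pool.Agent.ColorUp
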