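import Pool.Agent.ColorUp.Defs

/-!
Expectation of the trace polynomial.
-/

namespace Pool.Agent.ColorUp

open Finset BigOperators
open scoped Classical
open Pool.Agent.ColorRef

set_option linter.unusedSectionVars false

variable {n : ℕ}

/-- The pair of two vertices (junk value for equal vertices is excluded by the hypothesis). -/
def ep (a b : Fin n) (h : a ≠ b) : Pair n :=
  if h1 : a < b then ⟨(a, b), h1⟩ else ⟨(b, a), lt_of_le_of_ne (not_lt.1 h1) (Ne.symm h)⟩

lemma Sx_eq (y : Pair n → Bool) {a b : Fin n} (h : a ≠ b) : Sx y a b = sg (y (ep a b h)) := by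
  unfold Sx ep
  by_cases h1 : a < b
  · rw [dif_pos h1, dif_pos h1]
  · have h2 : b < a := lt_of_le_of_ne (not_lt.1 h1) (Ne.symm h)
    rw [dif_neg h1, dif_pos h2, dif_neg h1]

lemma ep_comm {a b : Fin n} (h : a ≠ b) : ep a b h = ep b a (Ne.symm h) := by
  unfold ep
  by_cases h1 : a < b
  · rw [dif_pos h1, dif_neg (not_lt.2 h1.le)]
  · have h2 : b < a := lt_of_le_of_ne (not_lt.1 h1) (Ne.symm h)
    rw [dif_neg h1, dif_pos h2]

lemma ep_ends {a b : Fin n} (h : a ≠ b) (X : Finset (Fin n)) :
    ((ep a b h).1.1 ∈ X ∧ (ep a b h).1.2 ∈ X) ↔ (a ∈ X ∧ b ∈ X) := by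
  unfold ep
  by_cases h1 : a < b
  · rw [dif_pos h1]
  · rw [dif_neg h1]; exact and_comm

lemma ep_eq_iff {a b c d : Fin n} (h : a ≠ b) (h' : c ≠ d) :
    ep a b h = ep c d h' ↔ (a = c ∧ b = d) ∨ (a = d ∧ b = c) := by
  unfold ep
  constructor
  · intro h1
    split_ifs at h1 with h2 h3 h3 <;> simp only [Subtype.mk.injEq, Prod.mk.injEq] at h1 <;> tauto
  · rintro (⟨rfl, rfl⟩ | ⟨rfl, rfl⟩)
    · rfl
    · exact ep_comm h

/-- Pairs between `I` and `V`. -/
noncomputable def btw (I V : Finset (Fin n)) : Finset (Pair n) :=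
  univ.filter (fun e => (e.1.1 ∈ I ∧ e.1.2 ∈ V) ∨ (e.1.2 ∈ I ∧ e.1.1 ∈ V))

lemma prod_btw (I V : Finset (Fin n)) (hd : Disjoint I V) (g : Pair n → ℝ)
    (G : Fin n → Fin n → ℝ) (hG : ∀ a b (h : a ≠ b), G a b = g (ep a b h)) :
    ∏ u ∈ V, ∏ i ∈ I, G i u = ∏ e ∈ btw I V, g e := by
  rw [← prod_product']
  have hne : ∀ p ∈ V ×ˢ I, p.2 ≠ p.1 := by
    intro p hp
    rw [mem_product] at hp
    rintro h
    exact (disjoint_left.1 hd) hp.2 (h ▸ hp.1)
  refine prod_bij (fun p hp => ep p.2 p.1 (hne p hp)) ?_ ?_ ?_ ?_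
  · intro p hp
    have h1 := mem_product.1 hp
    unfold btw ep
    rw [mem_filter]
    refine ⟨mem_univ _, ?_⟩
    by_cases h2 : p.2 < p.1
    · rw [dif_pos h2]; exact Or.inl ⟨h1.2, h1.1⟩
    · rw [dif_neg h2]; exact Or.inr ⟨h1.2, h1.1⟩
  · intro p hp q hq h
    rw [ep_eq_iff] at h
    have h1 := mem_product.1 hp
    have h2 := mem_product.1 hq
    rcases h with ⟨h3, h4⟩ | ⟨h3, h4⟩
    · exact Prod.ext h4 h3
    · exfalso
      exact (disjoint_left.1 hd) (h3 ▸ h1.2 : q.1 ∈ I) h2.1
  · intro e he
    unfold btw at he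
    rw [mem_filter] at he
    rcases he.2 with ⟨h1, h2⟩ | ⟨h1, h2⟩
    · refine ⟨(e.1.2, e.1.1), mem_product.2 ⟨h2, h1⟩, ?_⟩
      unfold ep
      rw [dif_pos e.2]
    · refine ⟨(e.1.1, e.1.2), mem_product.2 ⟨h2, h1⟩, ?_⟩
      unfold ep
      rw [dif_neg (not_lt.2 e.2.le)]
  · intro p hp
    exact hG _ _ _

/-- Independence: expectation of a product of neighbourhood indicators and a character. -/
lemma expect_nu_chi (I V : Finset (Fin n)) (hd : Disjoint I V) (O : Finset (Pair n))
    (hO : ∀ e ∈ O, e.1.1 ∈ V ∧ e.1.2 ∈ V) :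
    (𝔼 y : Pair n → Bool, (∏ u ∈ V, nu I y u) * chi O y) =
      ((1 / 2 : ℝ) ^ I.card) ^ V.card * (if O = ∅ then 1 else 0) := by
  have hnu : ∀ y : Pair n → Bool, ∏ u ∈ V, nu I y u =
      ∏ e ∈ btw I V, (1 - sg (y e)) / 2 := by
    intro y
    have h1 : ∏ u ∈ V, nu I y u = ∏ u ∈ V, ∏ i ∈ I, (1 - Sx y i u) / 2 := by
      apply prod_congr rfl
      intro u hu
      rw [nu, if_neg (fun h => (disjoint_left.1 hd) h hu)]
    rw [h1]
    exact prod_btw I V hd (fun e => (1 - sg (y e)) / 2) (fun a b => (1 - Sx y a b) / 2)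
      (fun a b h => by rw [Sx_eq y h])
  have hcard : (btw I V).card = I.card * V.card := by
    have h1 := prod_btw I V hd (fun _ => (2 : ℝ)) (fun _ _ => (2 : ℝ)) (fun _ _ _ => rfl)
    rw [prod_const, prod_const, prod_const, ← pow_mul] at h1
    have h2 := pow_right_injective₀ (by norm_num : (0 : ℝ) < 2) (by norm_num : (2 : ℝ) ≠ 1) h1
    exact h2.symm
  have hexp : ∀ y : Pair n → Bool, (∏ e ∈ btw I V, (1 - sg (y e)) / 2) =
      (1 / 2 : ℝ) ^ (I.card * V.card) * ∑ T ∈ (btw I V).powerset, (-1) ^ T.card * chi T y := by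
    intro y
    have h1 : ∏ e ∈ btw I V, (1 - sg (y e)) / 2 =
        ∏ e ∈ btw I V, ((1 / 2 : ℝ) * (-sg (y e) + 1)) := by
      apply prod_congr rfl
      intro e _
      ring
    rw [h1, prod_mul_distrib, prod_const, hcard, prod_add]
    congr 1
    apply sum_congr rfl
    intro T _
    rw [prod_const_one, mul_one, prod_neg, chi]
  simp only [hnu, hexp]
  have h2 : ∀ y : Pair n → Bool,
      (1 / 2 : ℝ) ^ (I.card * V.card) * (∑ T ∈ (btw I V).powerset, (-1) ^ T.card * chi T y) *
        chi O y =
      ∑ T ∈ (btw I V).powerset, ((1 / 2 : ℝ) ^ (I.card * V.card) * (-1) ^ T.card) *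
        chi (symmDiff T O) y := by
    intro y
    rw [mul_sum, sum_mul]
    apply sum_congr rfl
    intro T _
    rw [chi_symmDiff]
    ring
  simp only [h2]
  rw [expect_sum_comm]
  simp only [← mul_expect, expect_chi]
  have hdis : ∀ T ∈ (btw I V).powerset, symmDiff T O = ∅ ↔ (T = ∅ ∧ O = ∅) := by
    intro T hT
    rw [mem_powerset] at hT
    constructor
    · intro h
      have hTO : T = O := symmDiff_eq_bot.1 h
      have hTe : T = ∅ := by
        rw [eq_empty_iff_forall_notMem]
        intro e he
        have h3 := hT he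
        have h4 := hO e (hTO ▸ he)
        unfold btw at h3
        rw [mem_filter] at h3
        rcases h3.2 with ⟨h5, -⟩ | ⟨h5, -⟩
        · exact (disjoint_left.1 hd) h5 h4.1
        · exact (disjoint_left.1 hd) h5 h4.2
      exact ⟨hTe, hTO ▸ hTe⟩
    · rintro ⟨rfl, rfl⟩
      simp
  rw [sum_eq_single_of_mem ∅ (empty_mem_powerset _)]
  · simp only [card_empty, pow_zero, mul_one]
    rw [pow_mul]
    congr 1
    by_cases hO' : O = ∅
    · rw [if_pos hO', if_pos]; rw [hO']; simp
    · rw [if_neg hO', if_neg]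
      intro h
      exact hO' ((hdis ∅ (empty_mem_powerset _)).1 h).2
  · intro T hT hne
    rw [if_neg, mul_zero]
    intro h
    exact hne ((hdis T hT).1 h).1

/-- Degree of `v` in `O`. -/
noncomputable def dg (O : Finset (Pair n)) (v : Fin n) : ℕ :=
  (O.filter (fun e => e.1.1 = v ∨ e.1.2 = v)).card

lemma dg_insert {O : Finset (Pair n)} {e : Pair n} (he : e ∉ O) (v : Fin n) :
    dg (insert e O) v = dg O v + (if e.1.1 = v ∨ e.1.2 = v then 1 else 0) := by
  unfold dg
  rw [filter_insert]
  split_ifs with h
  · rw [card_insert_of_notMem]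
    intro h2
    exact he (mem_filter.1 h2).1
  · rfl

lemma dg_erase {O : Finset (Pair n)} {e : Pair n} (he : e ∈ O) (v : Fin n) :
    dg (O.erase e) v + (if e.1.1 = v ∨ e.1.2 = v then 1 else 0) = dg O v := by
  have h1 := dg_insert (notMem_erase e O) v
  rw [insert_erase he] at h1
  exact h1.symm

lemma symmDiff_single_of_notMem {O : Finset (Pair n)} {e : Pair n} (he : e ∉ O) :
    symmDiff O {e} = insert e O := by
  ext f
  rw [mem_symmDiff, mem_singleton, mem_insert]
  constructor
  · rintro (⟨h1, h2⟩ | ⟨h1, h2⟩)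
    · exact Or.inr h1
    · exact Or.inl h1
  · rintro (h | h)
    · subst h; exact Or.inr ⟨rfl, he⟩
    · refine Or.inl ⟨h, ?_⟩
      rintro rfl
      exact he h

lemma symmDiff_single_of_mem {O : Finset (Pair n)} {e : Pair n} (he : e ∈ O) :
    symmDiff O {e} = O.erase e := by
  ext f
  rw [mem_symmDiff, mem_singleton, mem_erase]
  constructor
  · rintro (⟨h1, h2⟩ | ⟨h1, h2⟩)
    · exact ⟨h2, h1⟩
    · subst h1; exact absurd he h2
  · rintro ⟨h1, h2⟩
    exact Or.inl ⟨h2, h1⟩

lemma ep_touch {a b : Fin n} (h : a ≠ b) (v : Fin n) :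
    ((ep a b h).1.1 = v ∨ (ep a b h).1.2 = v) ↔ (a = v ∨ b = v) := by
  unfold ep
  by_cases h1 : a < b
  · rw [dif_pos h1]
  · rw [dif_neg h1]; exact or_comm

lemma Sx_sq (y : Pair n → Bool) {a b : Fin n} (h : a ≠ b) : Sx y a b * Sx y a b = 1 := by
  rw [Sx_eq y h, sg_mul_self]

lemma nu_sq (I : Finset (Fin n)) (y : Pair n → Bool) (u : Fin n) :
    nu I y u * nu I y u = nu I y u := by
  unfold nu
  split_ifs with h
  · simp
  · rw [← prod_mul_distrib]
    apply prod_congr rfl
    intro i hi
    have hne : i ≠ u := by rintro rfl; exact h hi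
    have h1 := Sx_sq y hne
    linear_combination (1 / 4 : ℝ) * h1

lemma prod_nu_mul (I : Finset (Fin n)) (y : Pair n → Bool) (V : Finset (Fin n)) (b : Fin n) :
    (∏ u ∈ V, nu I y u) * nu I y b = ∏ u ∈ insert b V, nu I y u := by
  by_cases h : b ∈ V
  · rw [insert_eq_of_mem h, ← mul_prod_erase V _ h]
    have := nu_sq I y b
    calc nu I y b * (∏ u ∈ V.erase b, nu I y u) * nu I y b
        = (nu I y b * nu I y b) * ∏ u ∈ V.erase b, nu I y u := by ring
      _ = _ := by rw [this]
  · rw [prod_insert h, mul_comm]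

/-- Weighted expectation of an entry of a power. -/
noncomputable def Qe (I : Finset (Fin n)) (j : ℕ) (a z : Fin n) (V : Finset (Fin n))
    (O : Finset (Pair n)) : ℝ :=
  𝔼 y : Pair n → Bool, (∏ u ∈ V, nu I y u) * chi O y * ((Mx I y) ^ j) a z

lemma Qe_succ (I : Finset (Fin n)) (j : ℕ) (a z : Fin n) (V : Finset (Fin n))
    (O : Finset (Pair n)) (ha : a ∈ V) :
    Qe I (j + 1) a z V O = ∑ b : Fin n, if h : a ≠ b ∧ b ∉ I then
      Qe I j b z (insert b V) (symmDiff O {ep a b h.1}) else 0 := by
  unfold Qe
  have h1 : ∀ y : Pair n → Bool,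
      (∏ u ∈ V, nu I y u) * chi O y * ((Mx I y) ^ (j + 1)) a z =
      ∑ b : Fin n, if h : a ≠ b ∧ b ∉ I then (∏ u ∈ insert b V, nu I y u) *
        chi (symmDiff O {ep a b h.1}) y * ((Mx I y) ^ j) b z else 0 := by
    intro y
    rw [pow_succ', Matrix.mul_apply, mul_sum]
    apply sum_congr rfl
    intro b _
    by_cases h : a ≠ b ∧ b ∉ I
    · rw [dif_pos h, Mx_apply, chi_symmDiff, ← prod_nu_mul I y V b]
      have h2 : (∏ u ∈ V, nu I y u) * nu I y a = ∏ u ∈ V, nu I y u := by
        rw [prod_nu_mul, insert_eq_of_mem ha]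
      have h3 : chi {ep a b h.1} y = Sx y a b := by
        rw [chi, prod_singleton, Sx_eq y h.1]
      rw [h3]
      calc (∏ u ∈ V, nu I y u) * chi O y *
            (nu I y a * Sx y a b * nu I y b * ((Mx I y) ^ j) b z)
          = ((∏ u ∈ V, nu I y u) * nu I y a) * nu I y b * (chi O y * Sx y a b) *
            ((Mx I y) ^ j) b z := by ring
        _ = _ := by rw [h2]
    · rw [dif_neg h, Mx_apply]
      rw [not_and_or, not_not, not_not] at h
      rcases h with rfl | h
      · rw [Sx_self]; ring
      · have : nu I y b = 0 := by rw [nu, if_pos h]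
        rw [this]; ring
  simp only [h1]
  rw [expect_sum_comm]
  apply sum_congr rfl
  intro b _
  by_cases h : a ≠ b ∧ b ∉ I
  · simp only [dif_pos h]
  · simp only [dif_neg h]
    simp

theorem Qe_le (I : Finset (Fin n)) (ρ M θ s : ℝ) (hρ : ρ = (1 / 2 : ℝ) ^ I.card)
    (hM : 1 ≤ M) (hθ : 1 ≤ θ) (hs : 0 < s) (hMθ : ∀ h : ℕ, 1 + 2 * (h : ℝ) ≤ M * θ ^ h)
    (L : ℕ) (hP : (n : ℝ) * ρ + L * θ ^ L ≤ s ^ 2) (z : Fin n) :
    ∀ (j : ℕ) (a : Fin n) (V : Finset (Fin n)) (O : Finset (Pair n)) (h : ℕ),
      Disjoint I V → a ∈ V → (∀ e ∈ O, e.1.1 ∈ V ∧ e.1.2 ∈ V) →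
      (∀ v ∈ V, dg O v ≤ 2 + 2 * h) → dg O a ≤ 1 + 2 * h → V.card + j ≤ L →
      Qe I j a z V O * s ^ O.card ≤ ρ ^ V.card * (2 * M) ^ j * θ ^ (h * j) * s ^ j := by
  have hρ0 : 0 < ρ := by rw [hρ]; positivity
  have hM0 : 0 < M := by linarith
  have hθ0 : 0 < θ := by linarith
  intro j
  induction j with
  | zero =>
    intro a V O h hd ha hO _ _ _
    have h1 : Qe I 0 a z V O = (if a = z then 1 else 0) *
        (ρ ^ V.card * (if O = ∅ then 1 else 0)) := by
      unfold Qe
      have h2 : ∀ y : Pair n → Bool, (∏ u ∈ V, nu I y u) * chi O y * ((Mx I y) ^ 0) a z =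
          (if a = z then 1 else 0) * ((∏ u ∈ V, nu I y u) * chi O y) := by
        intro y
        rw [pow_zero, Matrix.one_apply]
        ring
      simp only [h2]
      rw [← mul_expect, expect_nu_chi I V hd O hO, hρ]
    rw [h1]
    simp only [pow_zero, mul_one, mul_zero]
    have hp : 0 < ρ ^ V.card := by positivity
    by_cases hO' : O = ∅
    · rw [if_pos hO', hO', card_empty, pow_zero, mul_one, mul_one]
      split_ifs
      · simp
      · simp only [zero_mul]; exact hp.le
    · rw [if_neg hO']
      simp only [mul_zero, zero_mul]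
      exact hp.le
  | succ j ih =>
    intro a V O h hd ha hO hdeg hdega hL
    set R : ℝ := ρ ^ V.card * (2 * M) ^ j * θ ^ (h * j) * s ^ j with hR
    have hR0 : 0 < R := by rw [hR]; positivity
    have hVL : V.card ≤ L := by omega
    have hjL : j ≤ L := by omega
    rw [Qe_succ I j a z V O ha, sum_mul]
    -- bound for one neighbour
    have hterm : ∀ b : Fin n, (if h : a ≠ b ∧ b ∉ I then
        Qe I j b z (insert b V) (symmDiff O {ep a b h.1}) else 0) * s ^ O.card ≤
        ρ * R / s + (if b ∈ V then R * θ ^ L / s else 0) +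
          (if (∃ h : a ≠ b, ep a b h ∈ O) then R * s else 0) := by
      intro b
      have n1 : 0 ≤ ρ * R / s := by positivity
      have n2 : 0 ≤ (if b ∈ V then R * θ ^ L / s else 0) := by
        split_ifs <;> positivity
      have n3 : 0 ≤ (if (∃ h : a ≠ b, ep a b h ∈ O) then R * s else 0) := by
        split_ifs <;> positivity
      by_cases hb : a ≠ b ∧ b ∉ I
      · rw [dif_pos hb]
        obtain ⟨hab, hbI⟩ := hb
        have hd' : Disjoint I (insert b V) := by
          rw [disjoint_insert_right]
          exact ⟨hbI, hd⟩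
        have hends : ∀ e ∈ symmDiff O {ep a b hab},
            e.1.1 ∈ insert b V ∧ e.1.2 ∈ insert b V := by
          intro e he
          rw [mem_symmDiff, mem_singleton] at he
          rcases he with ⟨h1, -⟩ | ⟨h1, -⟩
          · exact ⟨mem_insert_of_mem (hO e h1).1, mem_insert_of_mem (hO e h1).2⟩
          · rw [h1, ep_ends hab]
            exact ⟨mem_insert_of_mem ha, mem_insert_self _ _⟩
        by_cases he : ep a b hab ∈ O
        · -- closing step
          have hbV : b ∈ V := ((ep_ends hab V).1 (hO _ he)).2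
          have h3 : (∃ h : a ≠ b, ep a b h ∈ O) := ⟨hab, he⟩
          rw [if_pos h3]
          have hcard : (symmDiff O {ep a b hab}).card + 1 = O.card := by
            rw [symmDiff_single_of_mem he, card_erase_add_one he]
          have hdg : ∀ v, dg (symmDiff O {ep a b hab}) v +
              (if a = v ∨ b = v then 1 else 0) = dg O v := by
            intro v
            have := dg_erase he v
            rw [symmDiff_single_of_mem he]
            simp only [ep_touch hab] at this
            exact this
          have h4 := ih b (insert b V) (symmDiff O {ep a b hab}) h hd' (mem_insert_self _ _)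
            hends (by
              intro v hv
              rw [insert_eq_of_mem hbV] at hv
              have := hdg v
              have := hdeg v hv
              omega) (by
              have h5 := hdg b
              have h6 := hdeg b hbV
              rw [if_pos (Or.inr rfl)] at h5
              omega) (by rw [insert_eq_of_mem hbV]; omega)
          rw [insert_eq_of_mem hbV] at h4 ⊢
          rw [← hR] at h4
          rw [← hcard, pow_succ, ← mul_assoc]
          have h7 := mul_le_mul_of_nonneg_right h4 hs.le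
          linarith
        · have hcard : (symmDiff O {ep a b hab}).card = O.card + 1 := by
            rw [symmDiff_single_of_notMem he, card_insert_of_notMem he]
          have hdg : ∀ v, dg (symmDiff O {ep a b hab}) v =
              dg O v + (if a = v ∨ b = v then 1 else 0) := by
            intro v
            have := dg_insert he v
            rw [symmDiff_single_of_notMem he]
            simp only [ep_touch hab] at this
            exact this
          by_cases hbV : b ∈ V
          · -- opening step to an old vertex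
            rw [if_pos hbV]
            have h4 := ih b (insert b V) (symmDiff O {ep a b hab}) (h + 1) hd'
              (mem_insert_self _ _) hends (by
                intro v hv
                rw [insert_eq_of_mem hbV] at hv
                have h5 := hdg v
                have h6 := hdeg v hv
                have h7 : (if a = v ∨ b = v then 1 else 0) ≤ 1 := by split_ifs <;> omega
                omega) (by
                have h5 := hdg b
                have h6 := hdeg b hbV
                rw [if_pos (Or.inr rfl)] at h5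
                omega) (by rw [insert_eq_of_mem hbV]; omega)
            rw [insert_eq_of_mem hbV] at h4 ⊢
            rw [hcard, pow_succ, ← mul_assoc] at h4
            have h8 : ρ ^ V.card * (2 * M) ^ j * θ ^ ((h + 1) * j) * s ^ j ≤ R * θ ^ L := by
              have h9 : θ ^ ((h + 1) * j) = θ ^ (h * j) * θ ^ j := by
                rw [← pow_add]; congr 1; ring
              have h10 : θ ^ j ≤ θ ^ L := pow_le_pow_right₀ hθ hjL
              rw [h9, hR]
              calc ρ ^ V.card * (2 * M) ^ j * (θ ^ (h * j) * θ ^ j) * s ^ j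
                  = (ρ ^ V.card * (2 * M) ^ j * θ ^ (h * j) * s ^ j) * θ ^ j := by ring
                _ ≤ _ := mul_le_mul_of_nonneg_left h10 (by positivity)
            have h11 : Qe I j b z V (symmDiff O {ep a b hab}) * s ^ O.card ≤
                R * θ ^ L / s := by
              rw [le_div_iff₀ hs]
              exact h4.trans h8
            linarith
          · -- opening step to a new vertex
            have h0b : dg O b = 0 := by
              unfold dg
              rw [card_eq_zero, filter_eq_empty_iff]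
              rintro e he' (h5 | h5)
              · exact hbV (h5 ▸ (hO e he').1)
              · exact hbV (h5 ▸ (hO e he').2)
            have h4 := ih b (insert b V) (symmDiff O {ep a b hab}) h hd'
              (mem_insert_self _ _) hends (by
                intro v hv
                have h5 := hdg v
                rcases mem_insert.1 hv with rfl | hv'
                · rw [if_pos (Or.inr rfl)] at h5
                  omega
                · by_cases hav : a = v
                  · subst hav
                    rw [if_pos (Or.inl rfl)] at h5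
                    omega
                  · have hbv : b ≠ v := by rintro rfl; exact hbV hv'
                    rw [if_neg (by tauto)] at h5
                    have h6 := hdeg v hv'
                    omega) (by
                have h5 := hdg b
                rw [if_pos (Or.inr rfl)] at h5
                omega) (by rw [card_insert_of_notMem hbV]; omega)
            rw [card_insert_of_notMem hbV, hcard, pow_succ s, ← mul_assoc] at h4
            have h8 : ρ ^ (V.card + 1) * (2 * M) ^ j * θ ^ (h * j) * s ^ j = ρ * R := by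
              rw [hR, pow_succ]; ring
            rw [h8] at h4
            have h11 : Qe I j b z (insert b V) (symmDiff O {ep a b hab}) * s ^ O.card ≤
                ρ * R / s := by
              rw [le_div_iff₀ hs]
              exact h4
            linarith
      · rw [dif_neg hb, zero_mul]
        linarith
    refine (sum_le_sum (fun b _ => hterm b)).trans ?_
    rw [sum_add_distrib, sum_add_distrib, sum_const, card_univ, Fintype.card_fin, nsmul_eq_mul]
    have hs2 : ∑ b : Fin n, (if b ∈ V then R * θ ^ L / s else 0) = V.card * (R * θ ^ L / s) := by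
      rw [sum_ite_mem, univ_inter, sum_const, nsmul_eq_mul]
    have hs3 : ∑ b : Fin n, (if (∃ h : a ≠ b, ep a b h ∈ O) then R * s else 0) ≤
        (1 + 2 * (h : ℝ)) * (R * s) := by
      rw [← sum_filter, sum_const, nsmul_eq_mul]
      apply mul_le_mul_of_nonneg_right _ (by positivity)
      have h5 : (univ.filter (fun b : Fin n => ∃ h : a ≠ b, ep a b h ∈ O)).card ≤ dg O a := by
        unfold dg
        refine (card_le_card_of_injOn (t := (O.filter (fun e => e.1.1 = a ∨ e.1.2 = a)).image
          (fun e => (some e : Option (Pair n))))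
          (fun b => if h : a ≠ b then some (ep a b h) else none) ?_ ?_).trans card_image_le
        · intro b hb
          rw [mem_coe, mem_filter] at hb
          obtain ⟨-, hab, he⟩ := hb
          show (if h : a ≠ b then some (ep a b h) else none) ∈ _
          rw [dif_pos hab, mem_coe, mem_image]
          refine ⟨ep a b hab, mem_filter.2 ⟨he, ?_⟩, rfl⟩
          rw [ep_touch hab]
          exact Or.inl rfl
        · intro b hb c hc hbc
          rw [mem_coe, mem_filter] at hb hc
          obtain ⟨-, hab, -⟩ := hb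
          obtain ⟨-, hac, -⟩ := hc
          have hbc' : (if h : a ≠ b then some (ep a b h) else none) =
              (if h : a ≠ c then some (ep a c h) else none) := hbc
          rw [dif_pos hab, dif_pos hac, Option.some_inj, ep_eq_iff] at hbc'
          rcases hbc' with ⟨-, h5⟩ | ⟨h5, h6⟩
          · exact h5
          · exact absurd h5 hac
      have h6 : (univ.filter (fun b : Fin n => ∃ h : a ≠ b, ep a b h ∈ O)).card ≤ 1 + 2 * h :=
        h5.trans hdega
      exact_mod_cast h6
    rw [hs2]
    have hV' : (V.card : ℝ) ≤ L := by exact_mod_cast hVL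
    have hA : (n : ℝ) * (ρ * R / s) + V.card * (R * θ ^ L / s) ≤ R * s := by
      have h7 : (n : ℝ) * ρ + V.card * θ ^ L ≤ s ^ 2 := by
        refine le_trans ?_ hP
        have : (V.card : ℝ) * θ ^ L ≤ L * θ ^ L :=
          mul_le_mul_of_nonneg_right hV' (by positivity)
        linarith
      have h8 : (n : ℝ) * (ρ * R / s) + V.card * (R * θ ^ L / s) =
          ((n : ℝ) * ρ + V.card * θ ^ L) * R / s := by
        field_simp
      rw [h8, div_le_iff₀ hs]
      calc ((n : ℝ) * ρ + V.card * θ ^ L) * R ≤ s ^ 2 * R :=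
            mul_le_mul_of_nonneg_right h7 hR0.le
        _ = R * s * s := by ring
    have hB : (1 + 2 * (h : ℝ)) * (R * s) ≤ M * θ ^ h * (R * s) :=
      mul_le_mul_of_nonneg_right (hMθ h) (by positivity)
    have hC : (1 : ℝ) ≤ M * θ ^ h := by
      have : (1 : ℝ) ≤ θ ^ h := one_le_pow₀ hθ
      nlinarith
    have hfin : ρ ^ V.card * (2 * M) ^ (j + 1) * θ ^ (h * (j + 1)) * s ^ (j + 1) =
        2 * (M * θ ^ h) * (R * s) := by
      rw [hR, pow_succ, pow_succ, mul_add, mul_one, pow_add]
      ring
    rw [hfin]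
    have hRs : 0 < R * s := by positivity
    nlinarith

/-- Expectation of the trace. -/
theorem expect_trace_le (I : Finset (Fin n)) (ρ M θ s : ℝ) (hρ : ρ = (1 / 2 : ℝ) ^ I.card)
    (hM : 1 ≤ M) (hθ : 1 ≤ θ) (hs : 0 < s) (hMθ : ∀ h : ℕ, 1 + 2 * (h : ℝ) ≤ M * θ ^ h)
    (r : ℕ) (hr : 1 ≤ r) (hP : (n : ℝ) * ρ + (r + 1 : ℕ) * θ ^ (r + 1) ≤ s ^ 2) :
    𝔼 y : Pair n → Bool, ((Mx I y) ^ r).trace ≤ n * (ρ * (2 * M) ^ r * s ^ r) := by
  have hρ0 : 0 < ρ := by rw [hρ]; positivity
  obtain ⟨r', rfl⟩ : ∃ r', r = r' + 1 := ⟨r - 1, by omega⟩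
  have hrow : ∀ (y : Pair n → Bool) (a : Fin n),
      ((Mx I y) ^ (r' + 1)) a a = nu I y a * ((Mx I y) ^ (r' + 1)) a a := by
    intro y a
    rw [pow_succ', Matrix.mul_apply, mul_sum]
    apply sum_congr rfl
    intro b _
    rw [Mx_apply]
    have := nu_sq I y a
    calc nu I y a * Sx y a b * nu I y b * ((Mx I y) ^ r') b a
        = (nu I y a * nu I y a) * Sx y a b * nu I y b * ((Mx I y) ^ r') b a := by rw [this]
      _ = _ := by ring
  have h1 : 𝔼 y : Pair n → Bool, ((Mx I y) ^ (r' + 1)).trace =
      ∑ a : Fin n, 𝔼 y : Pair n → Bool, nu I y a * ((Mx I y) ^ (r' + 1)) a a := by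
    rw [← expect_sum_comm]
    apply expect_congr rfl
    intro y _
    rw [Matrix.trace]
    apply sum_congr rfl
    intro a _
    rw [Matrix.diag_apply]
    exact hrow y a
  rw [h1]
  have h2 : ∀ a ∈ (univ : Finset (Fin n)),
      (𝔼 y : Pair n → Bool, nu I y a * ((Mx I y) ^ (r' + 1)) a a) ≤
      ρ * (2 * M) ^ (r' + 1) * s ^ (r' + 1) := by
    intro a _
    by_cases ha : a ∈ I
    · have h3 : ∀ y : Pair n → Bool, nu I y a * ((Mx I y) ^ (r' + 1)) a a = 0 := by
        intro y
        rw [nu, if_pos ha, zero_mul]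
      rw [expect_congr rfl (fun y _ => h3 y), expect_const univ_nonempty]
      positivity
    · have h3 := Qe_le I ρ M θ s hρ hM hθ hs hMθ (r' + 1 + 1) (by exact_mod_cast hP) a
        (r' + 1) a {a} ∅ 0 (by rw [disjoint_singleton_right]; exact ha)
        (mem_singleton_self a) (by simp) (by intro v _; simp [dg]) (by simp [dg])
        (by rw [card_singleton]; omega)
      simp only [card_empty, pow_zero, mul_one, card_singleton, pow_one, zero_mul] at h3
      refine le_trans (le_of_eq ?_) h3
      unfold Qe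
      apply expect_congr rfl
      intro y _
      rw [prod_singleton, chi_empty, mul_one]
  calc ∑ a : Fin n, 𝔼 y : Pair n → Bool, nu I y a * ((Mx I y) ^ (r' + 1)) a a
      ≤ ∑ a : Fin n, ρ * (2 * M) ^ (r' + 1) * s ^ (r' + 1) := sum_le_sum h2
    _ = _ := by rw [sum_const, card_univ, Fintype.card_fin, nsmul_eq_mul]

end Pool.Agent.ColorUp
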